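import Pool.Agent.Run7.h50.T8.Chain

/-!
# Lattice points in convex position: at most `60 M²` points in a box of side `L < (M + 1)³`
-/

set_option autoImplicit false

namespace Run7.h50.T8

open Finset

/-- the real point of an integer point -/
def rp (P : ℤ × ℤ) : ℝ × ℝ := ((P.1 : ℝ), (P.2 : ℝ))

theorem hull_vertical {S : Set (ℝ × ℝ)} (hS : Convex ℝ S) {x y1 y y2 : ℝ}
    (h1 : (x, y1) ∈ S) (h2 : (x, y2) ∈ S) (h : y1 ≤ y) (h' : y ≤ y2) : (x, y) ∈ S := by
  rcases eq_or_lt_of_le (h.trans h') with he | hlt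
  · have : y = y1 := le_antisymm (he ▸ h') h
    rw [this]; exact h1
  have ha : 0 ≤ (y2 - y) / (y2 - y1) := div_nonneg (by linarith) (by linarith)
  have hb : 0 ≤ (y - y1) / (y2 - y1) := div_nonneg (by linarith) (by linarith)
  have hab : (y2 - y) / (y2 - y1) + (y - y1) / (y2 - y1) = 1 := by
    rw [← add_div, div_eq_one_iff_eq (by linarith)]; ring
  have := hS h1 h2 ha hb hab
  convert this using 1
  have hne : y2 - y1 ≠ 0 := by linarith
  ext
  · simp only [Prod.smul_mk, smul_eq_mul, Prod.mk_add_mk]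
    rw [← add_mul, hab, one_mul]
  · simp only [Prod.smul_mk, smul_eq_mul, Prod.mk_add_mk]
    field_simp; ring

theorem hull_line {S : Set (ℝ × ℝ)} (hS : Convex ℝ S) {x1 y1 x2 y2 x : ℝ}
    (h1 : (x1, y1) ∈ S) (h2 : (x2, y2) ∈ S) (h12 : x1 < x2) (hx1 : x1 ≤ x) (hx2 : x ≤ x2) :
    (x, y1 + (x - x1) / (x2 - x1) * (y2 - y1)) ∈ S := by
  have ha : 0 ≤ (x2 - x) / (x2 - x1) := div_nonneg (by linarith) (by linarith)
  have hb : 0 ≤ (x - x1) / (x2 - x1) := div_nonneg (by linarith) (by linarith)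
  have hab : (x2 - x) / (x2 - x1) + (x - x1) / (x2 - x1) = 1 := by
    rw [← add_div, div_eq_one_iff_eq (by linarith)]; ring
  have := hS h1 h2 ha hb hab
  convert this using 1
  have hne : x2 - x1 ≠ 0 := by linarith
  ext
  · simp only [Prod.smul_mk, smul_eq_mul, Prod.mk_add_mk]
    field_simp; ring
  · simp only [Prod.smul_mk, smul_eq_mul, Prod.mk_add_mk]
    field_simp; ring

theorem between {S : Set (ℝ × ℝ)} (hS : Convex ℝ S) {x1 y1 x2 y2 x3 y3 x4 y4 x y σ : ℝ}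
    (hσ : σ = 1 ∨ σ = -1)
    (h1 : (x1, y1) ∈ S) (h2 : (x2, y2) ∈ S) (h12 : x1 < x2) (hx1 : x1 ≤ x) (hx2 : x ≤ x2)
    (h3 : (x3, y3) ∈ S) (h4 : (x4, y4) ∈ S) (h34 : x3 < x4) (hx3 : x3 ≤ x) (hx4 : x ≤ x4)
    (ha : σ * ((y - y1) * (x2 - x1) - (x - x1) * (y2 - y1)) ≤ 0)
    (hb : 0 ≤ σ * ((y - y3) * (x4 - x3) - (x - x3) * (y4 - y3))) : (x, y) ∈ S := by
  have e1 := hull_line hS h1 h2 h12 hx1 hx2
  have e2 := hull_line hS h3 h4 h34 hx3 hx4
  have d1 : 0 < x2 - x1 := by linarith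
  have d2 : 0 < x4 - x3 := by linarith
  have f1 : (y - y1) * (x2 - x1) - (x - x1) * (y2 - y1)
      = (x2 - x1) * (y - (y1 + (x - x1) / (x2 - x1) * (y2 - y1))) := by
    field_simp; ring
  have f2 : (y - y3) * (x4 - x3) - (x - x3) * (y4 - y3)
      = (x4 - x3) * (y - (y3 + (x - x3) / (x4 - x3) * (y4 - y3))) := by
    field_simp; ring
  rw [f1] at ha
  rw [f2] at hb
  rcases hσ with rfl | rfl
  · apply hull_vertical hS e2 e1
    · by_contra hh
      push Not at hh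
      have := mul_pos d2 (sub_pos.2 hh)
      nlinarith
    · by_contra hh
      push Not at hh
      have := mul_pos d1 (sub_pos.2 hh)
      nlinarith
  · apply hull_vertical hS e1 e2
    · by_contra hh
      push Not at hh
      have := mul_pos d1 (sub_pos.2 hh)
      nlinarith
    · by_contra hh
      push Not at hh
      have := mul_pos d2 (sub_pos.2 hh)
      nlinarith

/-- No point of `W` is in the convex hull of the others. -/
def ConvPos (W : Finset (ℤ × ℤ)) : Prop :=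
  ∀ P ∈ W, rp P ∉ convexHull ℝ (rp '' (W.erase P : Finset (ℤ × ℤ)))

theorem mem_hull {W : Finset (ℤ × ℤ)} {P X : ℤ × ℤ} (hX : X ∈ W) (hne : X ≠ P) :
    rp X ∈ convexHull ℝ (rp '' (W.erase P : Finset (ℤ × ℤ))) :=
  subset_convexHull ℝ _ ⟨X, by simp [hX, hne], rfl⟩

theorem col_card {W : Finset (ℤ × ℤ)} (hW : ConvPos W) (c : ℤ) :
    (W.filter (fun X => X.1 = c)).card ≤ 2 := by
  classical
  rcases (W.filter (fun X => X.1 = c)).eq_empty_or_nonempty with he | hne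
  · rw [he]; simp
  obtain ⟨A, hA, hA'⟩ := exists_min_image _ (fun X : ℤ × ℤ => X.2) hne
  obtain ⟨B, hB, hB'⟩ := exists_max_image _ (fun X : ℤ × ℤ => X.2) hne
  have hsub : W.filter (fun X => X.1 = c) ⊆ {A, B} := by
    intro X hX
    by_contra hh
    simp only [mem_insert, mem_singleton, not_or] at hh
    have h1 := hA' X hX
    have h2 := hB' X hX
    simp only [mem_filter] at hA hB hX
    apply hW X hX.1
    have a1 := mem_hull hA.1 (Ne.symm hh.1)
    have a2 := mem_hull hB.1 (Ne.symm hh.2)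
    have e1 : rp A = ((X.1 : ℝ), (A.2 : ℝ)) := by simp [rp, hA.2, hX.2]
    have e2 : rp B = ((X.1 : ℝ), (B.2 : ℝ)) := by simp [rp, hB.2, hX.2]
    rw [e1] at a1
    rw [e2] at a2
    exact hull_vertical (convex_convexHull ℝ _) a1 a2 (by exact_mod_cast h1)
      (by exact_mod_cast h2)
  exact (card_le_card hsub).trans card_le_two

theorem half_card {W : Finset (ℤ × ℤ)} (hW : ConvPos W) {L M : ℕ}
    (hL1 : ∀ A ∈ W, ∀ B ∈ W, A.1 - B.1 ≤ L) (hL2 : ∀ A ∈ W, ∀ B ∈ W, A.2 - B.2 ≤ L)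
    {P Q : ℤ × ℤ} (hP : P ∈ W) (hQ : Q ∈ W) (hPQ : P.1 < Q.1) (σ : ℤ) (hσ : σ = 1 ∨ σ = -1) :
    M * (W.filter (fun X => P.1 < X.1 ∧ X.1 < Q.1 ∧
      0 ≤ σ * ((X.2 - P.2) * (Q.1 - P.1) - (X.1 - P.1) * (Q.2 - P.2)))).card
      ≤ M + M * (M * (2 * M + 1)) + 3 * L := by
  classical
  set U := W.filter (fun X => P.1 < X.1 ∧ X.1 < Q.1 ∧
      0 ≤ σ * ((X.2 - P.2) * (Q.1 - P.1) - (X.1 - P.1) * (Q.2 - P.2))) with hU
  have hσr : ((σ : ℤ) : ℝ) = 1 ∨ ((σ : ℤ) : ℝ) = -1 := by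
    rcases hσ with h | h <;> simp [h]
  have hPQr : (P.1 : ℝ) < Q.1 := by exact_mod_cast hPQ
  have hUW : ∀ X ∈ U, X ∈ W ∧ P.1 < X.1 ∧ X.1 < Q.1 ∧
      0 ≤ σ * ((X.2 - P.2) * (Q.1 - P.1) - (X.1 - P.1) * (Q.2 - P.2)) := fun X hX => by
    simpa [hU] using hX
  have hne : ∀ X ∈ U, P ≠ X ∧ Q ≠ X := by
    intro X hX
    have := hUW X hX
    constructor
    · rintro rfl; exact lt_irrefl _ this.2.1
    · rintro rfl; exact lt_irrefl _ this.2.2.1
  -- strict concavity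
  have hconc : ∀ A ∈ U, ∀ B ∈ U, ∀ C ∈ U, A.1 < B.1 → B.1 < C.1 →
      0 < σ * ((B.2 - A.2) * (C.1 - A.1) - (B.1 - A.1) * (C.2 - A.2)) := by
    intro A hA B hB C hC hAB hBC
    by_contra hh
    push Not at hh
    obtain ⟨hBW, hB1, hB2, hB3⟩ := hUW B hB
    apply hW B hBW
    have a1 := mem_hull (P := B) (hUW A hA).1 (by rintro rfl; exact lt_irrefl _ hAB)
    have a2 := mem_hull (P := B) (hUW C hC).1 (by rintro rfl; exact lt_irrefl _ hBC)
    have a3 := mem_hull hP (hne B hB).1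
    have a4 := mem_hull hQ (hne B hB).2
    refine between (convex_convexHull ℝ _) hσr a1 a2 ?_ ?_ ?_ a3 a4 hPQr ?_ ?_ ?_ ?_
    · exact_mod_cast hAB.trans hBC
    · exact_mod_cast hAB.le
    · exact_mod_cast hBC.le
    · exact_mod_cast hB1.le
    · exact_mod_cast hB2.le
    · exact_mod_cast hh
    · exact_mod_cast hB3
  -- injectivity of the first coordinate
  have hinj' : ∀ A ∈ U, ∀ B ∈ U, A.1 = B.1 → σ * A.2 ≤ σ * B.2 → A = B := by
    intro A hA B hB hAB hle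
    by_contra hne'
    obtain ⟨hAW, hA1, hA2, hA3⟩ := hUW A hA
    apply hW A hAW
    have a2 := mem_hull (hUW B hB).1 (Ne.symm hne')
    have a3 := mem_hull hP (hne A hA).1
    have a4 := mem_hull hQ (hne A hA).2
    have e0 := hull_line (convex_convexHull ℝ _) (x := (A.1 : ℝ)) a3 a4 hPQr
      (by exact_mod_cast hA1.le) (by exact_mod_cast hA2.le)
    have e2 : rp B = ((A.1 : ℝ), (B.2 : ℝ)) := by simp [rp, hAB]
    rw [e2] at a2
    have d2 : (0 : ℝ) < (Q.1 : ℝ) - P.1 := by linarith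
    have f2 : ((A.2 : ℝ) - P.2) * (Q.1 - P.1) - (A.1 - P.1) * (Q.2 - P.2)
      = (Q.1 - P.1) * (A.2 - (P.2 + (A.1 - P.1) / (Q.1 - P.1) * (Q.2 - P.2))) := by
      field_simp; ring
    have hA3r : (0 : ℝ) ≤ (σ : ℝ) * (((A.2 : ℝ) - P.2) * (Q.1 - P.1)
      - (A.1 - P.1) * (Q.2 - P.2)) := by exact_mod_cast hA3
    rw [f2] at hA3r
    have hler : (σ : ℝ) * A.2 ≤ σ * B.2 := by exact_mod_cast hle
    rcases hσr with h | h
    · rw [h] at hA3r hler
      refine hull_vertical (convex_convexHull ℝ _) e0 a2 ?_ (by linarith)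
      by_contra hh
      push Not at hh
      have := mul_pos d2 (sub_pos.2 hh)
      nlinarith
    · rw [h] at hA3r hler
      refine hull_vertical (convex_convexHull ℝ _) a2 e0 (by linarith) ?_
      by_contra hh
      push Not at hh
      have := mul_pos d2 (sub_pos.2 hh)
      nlinarith
  have hinj : Set.InjOn (fun X : ℤ × ℤ => X.1) (U : Set (ℤ × ℤ)) := by
    intro A hA B hB hAB
    rcases le_total (σ * A.2) (σ * B.2) with h | h
    · exact hinj' A hA B hB hAB h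
    · exact (hinj' B hB A hA hAB.symm h).symm
  set S := U.image (fun X : ℤ × ℤ => X.1) with hS
  have hcard : S.card = U.card := card_image_of_injOn hinj
  rcases Nat.eq_zero_or_pos U.card with h0 | hpos
  · rw [h0]; simp
  obtain ⟨k, hk⟩ : ∃ k, U.card = k + 1 := ⟨U.card - 1, by omega⟩
  have hSk : S.card = k + 1 := by rw [hcard, hk]
  have hex : ∀ z ∈ S, ∃ X ∈ U, X.1 = z := fun z hz => by simpa [hS] using hz
  choose! f hfU hf1 using hex
  let e := S.orderEmbOfFin hSk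
  let x : ℕ → ℤ := fun j => if h : j < k + 1 then e ⟨j, h⟩ else 0
  have hxS : ∀ j, j < k + 1 → x j ∈ S := by
    intro j hj
    simp only [x, dif_pos hj]
    exact orderEmbOfFin_mem _ _ _
  have hxlt : ∀ i j, i < j → j < k + 1 → x i < x j := by
    intro i j hij hj
    simp only [x, dif_pos hj, dif_pos (hij.trans hj)]
    exact e.strictMono (by simpa using hij)
  let y : ℕ → ℤ := fun j => σ * (f (x j)).2
  have hpt : ∀ j, j < k + 1 → f (x j) ∈ U := fun j hj => hfU _ (hxS j hj)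
  have hpt1 : ∀ j, j < k + 1 → (f (x j)).1 = x j := fun j hj => hf1 _ (hxS j hj)
  have key := chain_bound k L M x y (fun j hj => hxlt j (j + 1) (by omega) (by omega))
    (by
      have := hL1 _ (hUW _ (hpt k (by omega))).1 _ (hUW _ (hpt 0 (by omega))).1
      rw [hpt1 k (by omega), hpt1 0 (by omega)] at this
      exact this)
    (by
      intro i j hi hj
      have h1 := hL2 _ (hUW _ (hpt i (by omega))).1 _ (hUW _ (hpt j (by omega))).1
      have h2 := hL2 _ (hUW _ (hpt j (by omega))).1 _ (hUW _ (hpt i (by omega))).1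
      simp only [y]
      rcases hσ with h | h <;> rw [h] <;> linarith)
    (by
      intro j hj
      have h := hconc _ (hpt j (by omega)) _ (hpt (j + 1) (by omega)) _
        (hpt (j + 2) (by omega))
        (by rw [hpt1 j (by omega), hpt1 (j + 1) (by omega)]; exact hxlt _ _ (by omega) (by omega))
        (by rw [hpt1 (j + 1) (by omega), hpt1 (j + 2) (by omega)];
            exact hxlt _ _ (by omega) (by omega))
      rw [hpt1 j (by omega), hpt1 (j + 1) (by omega), hpt1 (j + 2) (by omega)] at h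
      simp only [y]
      nlinarith)
  rw [hk]
  calc M * (k + 1) = M * k + M := by ring
    _ ≤ (M * (M * (2 * M + 1)) + 3 * L) + M := by gcongr
    _ = _ := by ring

theorem lattice_card {W : Finset (ℤ × ℤ)} (hW : ConvPos W) {L M : ℕ} (hM : 1 ≤ M)
    (hLM : L < (M + 1) ^ 3)
    (hL1 : ∀ A ∈ W, ∀ B ∈ W, A.1 - B.1 ≤ L) (hL2 : ∀ A ∈ W, ∀ B ∈ W, A.2 - B.2 ≤ L) :
    W.card ≤ 60 * M ^ 2 := by
  classical
  have hM2 : 1 ≤ M ^ 2 := Nat.one_le_pow _ _ hM
  rcases W.eq_empty_or_nonempty with he | hne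
  · rw [he]; simp
  obtain ⟨P, hP, hP'⟩ := exists_min_image W (fun X : ℤ × ℤ => X.1) hne
  obtain ⟨Q, hQ, hQ'⟩ := exists_max_image W (fun X : ℤ × ℤ => X.1) hne
  rcases (hP' Q hQ).eq_or_lt with heq | hlt
  · have : W = W.filter (fun X => X.1 = P.1) := by
      apply (filter_eq_self.2 _).symm
      intro X hX
      have a : P.1 ≤ X.1 := hP' X hX
      have b : X.1 ≤ Q.1 := hQ' X hX
      have heq' : P.1 = Q.1 := heq
      omega
    rw [this]
    have := col_card hW P.1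
    omega
  have h1 := half_card (M := M) hW hL1 hL2 hP hQ hlt 1 (Or.inl rfl)
  have h2 := half_card (M := M) hW hL1 hL2 hP hQ hlt (-1) (Or.inr rfl)
  have c1 := col_card hW P.1
  have c2 := col_card hW Q.1
  set U1 := W.filter (fun X => P.1 < X.1 ∧ X.1 < Q.1 ∧
      0 ≤ 1 * ((X.2 - P.2) * (Q.1 - P.1) - (X.1 - P.1) * (Q.2 - P.2)))
  set U2 := W.filter (fun X => P.1 < X.1 ∧ X.1 < Q.1 ∧
      0 ≤ (-1) * ((X.2 - P.2) * (Q.1 - P.1) - (X.1 - P.1) * (Q.2 - P.2)))
  have hcov : W ⊆ W.filter (fun X => X.1 = P.1) ∪ (W.filter (fun X => X.1 = Q.1) ∪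
      (U1 ∪ U2)) := by
    intro X hX
    simp only [U1, U2, mem_union, mem_filter]
    by_cases e1 : X.1 = P.1
    · exact Or.inl ⟨hX, e1⟩
    by_cases e2 : X.1 = Q.1
    · exact Or.inr (Or.inl ⟨hX, e2⟩)
    have a : P.1 ≤ X.1 := hP' X hX
    have b : X.1 ≤ Q.1 := hQ' X hX
    have a' : P.1 < X.1 := by omega
    have b' : X.1 < Q.1 := by omega
    rcases le_total 0 ((X.2 - P.2) * (Q.1 - P.1) - (X.1 - P.1) * (Q.2 - P.2)) with h | h
    · exact Or.inr (Or.inr (Or.inl ⟨hX, a', b', by linarith⟩))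
    · exact Or.inr (Or.inr (Or.inr ⟨hX, a', b', by linarith⟩))
  have hcard : W.card ≤ 2 + (2 + (U1.card + U2.card)) := by
    calc W.card ≤ _ := card_le_card hcov
      _ ≤ _ := card_union_le _ _
      _ ≤ 2 + (2 + (U1.card + U2.card)) := by
        gcongr
        refine (card_union_le _ _).trans ?_
        gcongr
        exact card_union_le _ _
  have hL8 : L ≤ 8 * M ^ 3 := by
    have : (M + 1) ^ 3 ≤ (2 * M) ^ 3 := Nat.pow_le_pow_left (by omega) 3
    have h8 : (2 * M) ^ 3 = 8 * M ^ 3 := by ring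
    omega
  have hfin : M * W.card ≤ M * (60 * M ^ 2) := by
    have hM13 : M ≤ M ^ 3 := by nlinarith
    have hM23 : M ^ 2 ≤ M ^ 3 := Nat.pow_le_pow_right hM (by omega)
    calc M * W.card ≤ M * (2 + (2 + (U1.card + U2.card))) := by gcongr
      _ = 4 * M + (M * U1.card + M * U2.card) := by ring
      _ ≤ 4 * M + ((M + M * (M * (2 * M + 1)) + 3 * L) + (M + M * (M * (2 * M + 1)) + 3 * L)) := by
        gcongr
      _ = 6 * M + 4 * M ^ 3 + 2 * M ^ 2 + 6 * L := by ring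
      _ ≤ 6 * M ^ 3 + 4 * M ^ 3 + 2 * M ^ 3 + 6 * (8 * M ^ 3) := by gcongr
      _ = M * (60 * M ^ 2) := by ring
  exact Nat.le_of_mul_le_mul_left hfin hM

end Run7.h50.T8
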