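import Mathlib

/-!
# Lattice points in convex position (for the lower bound T8)
-/

set_option autoImplicit false

namespace Run7.h50.T8

open Finset

/-- consecutive slopes strictly decrease, so all slopes strictly decrease -/
theorem slopes {k : ℕ} {dx dy : ℕ → ℤ} (hx : ∀ j < k, 0 < dx j)
    (hs : ∀ j, j + 1 < k → dy (j + 1) * dx j < dy j * dx (j + 1)) :
    ∀ i j, i < j → j < k → dy j * dx i < dy i * dx j := by
  intro i j hij
  induction j, hij using Nat.le_induction with
  | base => intro h; exact hs i h
  | succ j hij ih =>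
    intro h
    have h1 := ih (by omega)
    have h2 := hs j h
    have hi := hx i (by omega)
    have hj := hx j (by omega)
    have hj1 := hx (j + 1) h
    have h3 : dy (j + 1) * dx i * dx j < dy i * dx (j + 1) * dx j := by
      nlinarith [mul_lt_mul_of_pos_right h1 hj1, mul_lt_mul_of_pos_right h2 hi]
    exact lt_of_mul_lt_mul_right h3 hj.le

theorem chain_bound (k : ℕ) (L M : ℕ) (x y : ℕ → ℤ)
    (hx : ∀ j < k, x j < x (j + 1))
    (hxL : x k - x 0 ≤ L)
    (hyL : ∀ i j, i ≤ k → j ≤ k → y i - y j ≤ L)
    (hs : ∀ j, j + 1 < k → (y (j + 2) - y (j + 1)) * (x (j + 1) - x j)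
      < (y (j + 1) - y j) * (x (j + 2) - x (j + 1))) :
    M * k ≤ M * (M * (2 * M + 1)) + 3 * L := by
  classical
  set dx : ℕ → ℤ := fun j => x (j + 1) - x j with hdx
  set dy : ℕ → ℤ := fun j => y (j + 1) - y j with hdy
  have hdx0 : ∀ j < k, 0 < dx j := fun j hj => by have := hx j hj; simp only [hdx]; omega
  have hsl := slopes (k := k) (dx := dx) (dy := dy) hdx0 (fun j hj => hs j hj)
  set J1 := (range k).filter (fun j => dx j ≤ M ∧ -(M : ℤ) ≤ dy j ∧ dy j ≤ M)
  set J2 := (range k).filter (fun j => (M : ℤ) < dx j)
  set J3 := (range k).filter (fun j => (M : ℤ) < dy j)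
  set J4 := (range k).filter (fun j => dy j < -(M : ℤ))
  have hcov : range k ⊆ J1 ∪ (J2 ∪ (J3 ∪ J4)) := by
    intro j hj
    simp only [J1, J2, J3, J4, mem_union, mem_filter]
    by_cases h1 : (M : ℤ) < dx j
    · exact Or.inr (Or.inl ⟨hj, h1⟩)
    by_cases h2 : (M : ℤ) < dy j
    · exact Or.inr (Or.inr (Or.inl ⟨hj, h2⟩))
    by_cases h3 : dy j < -(M : ℤ)
    · exact Or.inr (Or.inr (Or.inr ⟨hj, h3⟩))
    · exact Or.inl ⟨hj, by omega, by omega, by omega⟩
  have hcard : k ≤ J1.card + (J2.card + (J3.card + J4.card)) := by
    calc k = (range k).card := (card_range k).symm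
      _ ≤ (J1 ∪ (J2 ∪ (J3 ∪ J4))).card := card_le_card hcov
      _ ≤ J1.card + (J2 ∪ (J3 ∪ J4)).card := card_union_le _ _
      _ ≤ J1.card + (J2.card + (J3 ∪ J4).card) := by gcongr; exact card_union_le _ _
      _ ≤ _ := by gcongr; exact card_union_le _ _
  have h1 : J1.card ≤ M * (2 * M + 1) := by
    have hinj : Set.InjOn (fun j => (dx j, dy j)) (J1 : Set ℕ) := by
      intro i hi j hj hij
      simp only [J1, coe_filter, Set.mem_ofPred_eq, mem_range] at hi hj
      simp only [Prod.mk.injEq] at hij
      rcases lt_trichotomy i j with h | h | h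
      · have := hsl i j h hj.1
        rw [hij.1, hij.2] at this; exact absurd this (lt_irrefl _)
      · exact h
      · have := hsl j i h hi.1
        rw [hij.1, hij.2] at this; exact absurd this (lt_irrefl _)
    have hmaps : ∀ j ∈ J1, (fun j => (dx j, dy j)) j ∈
        (Icc (1 : ℤ) M) ×ˢ (Icc (-(M : ℤ)) M) := by
      intro j hj
      simp only [J1, mem_filter, mem_range] at hj
      simp only [mem_product, mem_Icc]
      have := hdx0 j hj.1
      exact ⟨⟨by omega, hj.2.1⟩, hj.2.2⟩
    have := card_le_card_of_injOn _ hmaps hinj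
    rw [card_product, Int.card_Icc, Int.card_Icc] at this
    have e1 : ((M : ℤ) + 1 - 1).toNat = M := by simp
    have e2 : ((M : ℤ) + 1 - -(M : ℤ)).toNat = 2 * M + 1 := by
      have : (M : ℤ) + 1 - -(M : ℤ) = ((2 * M + 1 : ℕ) : ℤ) := by push_cast; ring
      rw [this]; exact Int.toNat_natCast _
    rw [e1, e2] at this
    exact this
  have h2 : M * J2.card ≤ L := by
    have hsum : (M : ℤ) * J2.card ≤ ∑ j ∈ J2, dx j := by
      have := card_nsmul_le_sum J2 dx (M : ℤ) (fun j hj => by
        simp only [J2, mem_filter] at hj; exact hj.2.le)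
      simpa [mul_comm] using this
    have h3 : ∑ j ∈ J2, dx j ≤ ∑ j ∈ range k, dx j := by
      apply sum_le_sum_of_subset_of_nonneg (filter_subset _ _)
      intro j hj _
      exact (hdx0 j (mem_range.1 hj)).le
    have h4 : ∑ j ∈ range k, dx j = x k - x 0 := sum_range_sub x k
    have : (M : ℤ) * J2.card ≤ L := by linarith
    exact_mod_cast this
  have h3 : M * J3.card ≤ L := by
    rcases J3.eq_empty_or_nonempty with he | hne
    · rw [he]; simp
    set r := J3.max' hne
    have hr : r ∈ J3 := max'_mem _ _
    have hr' := hr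
    simp only [J3, mem_filter, mem_range] at hr'
    have hpos : ∀ j < r, 0 < dy j := by
      intro j hj
      have a := hsl j r hj hr'.1
      have b := hdx0 j (by omega)
      have c := hdx0 r hr'.1
      have d : 0 < dy r * dx j := mul_pos (by have := hr'.2; omega) b
      have e : 0 < dy j * dx r := lt_trans d a
      exact pos_of_mul_pos_left e c.le |> fun h => by
        rcases lt_trichotomy 0 (dy j) with h | h | h
        · exact h
        · rw [← h] at e; simp at e
        · nlinarith
    have hsum : (M : ℤ) * J3.card ≤ ∑ j ∈ J3, dy j := by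
      have := card_nsmul_le_sum J3 dy (M : ℤ) (fun j hj => by
        simp only [J3, mem_filter] at hj; exact hj.2.le)
      simpa [mul_comm] using this
    have hsub : J3 ⊆ range (r + 1) := by
      intro j hj
      have := le_max' J3 j hj
      simp only [mem_range]; omega
    have h5 : ∑ j ∈ J3, dy j ≤ ∑ j ∈ range (r + 1), dy j := by
      apply sum_le_sum_of_subset_of_nonneg hsub
      intro j hj _
      have : j < r ∨ j = r := by have := mem_range.1 hj; omega
      rcases this with h | h
      · exact (hpos j h).le
      · rw [h]; have := hr'.2; omega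
    have h6 : ∑ j ∈ range (r + 1), dy j = y (r + 1) - y 0 := sum_range_sub y (r + 1)
    have h7 := hyL (r + 1) 0 (by omega) (by omega)
    have : (M : ℤ) * J3.card ≤ L := by linarith
    exact_mod_cast this
  have h4 : M * J4.card ≤ L := by
    rcases J4.eq_empty_or_nonempty with he | hne
    · rw [he]; simp
    set r := J4.min' hne
    have hr : r ∈ J4 := min'_mem _ _
    have hr' := hr
    simp only [J4, mem_filter, mem_range] at hr'
    have hneg : ∀ j, r < j → j < k → dy j < 0 := by
      intro j hj hjk
      have a := hsl r j hj hjk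
      have b := hdx0 j hjk
      have c := hdx0 r hr'.1
      have d : dy r * dx j < 0 := mul_neg_of_neg_of_pos (by have := hr'.2; omega) b
      by_contra hh
      have : 0 ≤ dy j * dx r := mul_nonneg (by omega) c.le
      linarith
    have hsum : (M : ℤ) * J4.card ≤ ∑ j ∈ J4, -dy j := by
      have := card_nsmul_le_sum J4 (fun j => -dy j) (M : ℤ) (fun j hj => by
        simp only [J4, mem_filter] at hj
        have := hj.2
        show (M : ℤ) ≤ -dy j
        omega)
      simpa [mul_comm] using this
    have hsub : J4 ⊆ Ico r k := by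
      intro j hj
      have h' := min'_le J4 j hj
      simp only [J4, mem_filter, mem_range] at hj
      simp only [mem_Ico]; exact ⟨h', hj.1⟩
    have h5 : ∑ j ∈ J4, -dy j ≤ ∑ j ∈ Ico r k, -dy j := by
      apply sum_le_sum_of_subset_of_nonneg hsub
      intro j hj _
      have hj' := mem_Ico.1 hj
      have : r < j ∨ j = r := by omega
      rcases this with h | h
      · have := hneg j h hj'.2; omega
      · rw [h]; have := hr'.2; omega
    have h6 : ∑ j ∈ Ico r k, -dy j = y r - y k := by
      rw [sum_neg_distrib]
      have := sum_Ico_sub y (show r ≤ k by omega)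
      simp only [hdy]
      rw [this]; ring
    have h7 := hyL r k (by omega) le_rfl
    have : (M : ℤ) * J4.card ≤ L := by linarith
    exact_mod_cast this
  calc M * k ≤ M * (J1.card + (J2.card + (J3.card + J4.card))) := by gcongr
    _ = M * J1.card + (M * J2.card + (M * J3.card + M * J4.card)) := by ring
    _ ≤ M * (M * (2 * M + 1)) + (L + (L + L)) := by gcongr
    _ = _ := by ring

end Run7.h50.T8
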