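import Pool.Agent.Run7.h50.T8.Fan

/-!
# A face with many rim vertices on its boundary (for the lower bound T8)
-/

set_option autoImplicit false

namespace Run7.h50.T8

open Pool.Agent.Run7.h215 Set

variable {n : ℕ} {P : ℕ → ℝ × ℝ}

/-- the two neighbours of `i` are on different sides -/
def Good (P : ℕ → ℝ × ℝ) (i : ℕ) : Prop :=
  D (P 0) (P i) (P (i - 1)) * D (P 0) (P i) (P (i + 1)) < 0

theorem Pl.good_or_bad (h : Pl n P) {i : ℕ} (hi : 2 ≤ i) (hi' : i + 1 < n) :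
    Good P i ∨ Bad P i := by
  have h1 := h.nondeg (show 0 < n by omega) (show i < n by omega) hi' (by unfold WA; omega)
    (by unfold WA; omega) (by unfold WA; omega)
  have h2 := h.nondeg (show 0 < n by omega) (show i < n by omega) (show i - 1 < n by omega)
    (by unfold WA; omega) (by unfold WA; omega) (by unfold WA; omega)
  rcases lt_or_gt_of_ne (mul_ne_zero h2 h1) with h | h
  · exact Or.inl h
  · exact Or.inr h

theorem neg_div {x y : ℝ} (h : x * y < 0) : x / y < 0 := by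
  have hy : y ≠ 0 := by rintro rfl; simp at h
  have : x / y = (x * y) / (y * y) := by field_simp
  rw [this]
  exact div_neg_of_neg_of_pos h (mul_self_pos.2 hy)

theorem Pl.edge_thin (h : Pl n P) {i : ℕ} (hi : 2 ≤ i) (hi' : i + 2 < n)
    (g1 : Good P i) (g2 : Good P (i + 1)) (k l : ℕ) (hk : k < n) (hl : l < n) (hkl : WA n k l) :
    ∃ δ > 0, ∀ q ∈ segment ℝ (P k) (P l), q ∉ Z (P 0) (P i) (P (i + 1)) δ := by
  have w0i : WA n 0 i := by unfold WA; omega
  have w0p : WA n 0 (i + 1) := by unfold WA; omega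
  have wip : WA n i (i + 1) := by unfold WA; omega
  have hΔ := h.nondeg (show 0 < n by omega) (show i < n by omega) (show i + 1 < n by omega)
    w0i wip w0p
  have hga : ga (P 0) (P i) (P (i + 1)) (P (i - 1)) < 0 := neg_div g1
  have hbe : be (P 0) (P i) (P (i + 1)) (P (i + 2)) < 0 := by
    have e : be (P 0) (P i) (P (i + 1)) (P (i + 2))
        = D (P 0) (P (i + 1)) (P (i + 2)) / D (P 0) (P (i + 1)) (P i) := by
      unfold be
      have a1 : D (P 0) (P (i + 2)) (P (i + 1)) = -D (P 0) (P (i + 1)) (P (i + 2)) := by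
        simp only [D]; ring
      have a2 : D (P 0) (P i) (P (i + 1)) = -D (P 0) (P (i + 1)) (P i) := by
        simp only [D]; ring
      rw [a1, a2, neg_div_neg_eq]
    rw [e]
    apply neg_div
    have := g2
    unfold Good at this
    rw [show i + 1 - 1 = i by omega, show i + 1 + 1 = i + 2 by omega] at this
    rw [mul_comm]; exact this
  -- edges at `i`
  have ei : ∀ l, WA n i l → l < n → ∃ δ > 0, ∀ q ∈ segment ℝ (P i) (P l),
      q ∉ Z (P 0) (P i) (P (i + 1)) δ := by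
    intro l hw hl
    refine ⟨1, one_pos, ?_⟩
    intro q hq hZ
    obtain ⟨t, ⟨t0, t1⟩, rfl⟩ := mem_segment_iff.1 hq
    have hl' : l = 0 ∨ l = i + 1 ∨ l = i - 1 := by unfold WA at hw; omega
    have hZ1 := hZ.1
    rw [al_pt, al_b] at hZ1
    rcases hl' with rfl | rfl | rfl
    · rw [al_a hΔ] at hZ1; linarith
    · rw [al_c] at hZ1; linarith
    · have hZ4 := hZ.2.2.2
      rw [ga_pt, ga_b] at hZ4
      rcases eq_or_lt_of_le t0 with h0 | h0
      · rw [← h0] at hZ1; simp at hZ1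
      · have := mul_neg_of_pos_of_neg h0 hga
        linarith
  have ej : ∀ l, WA n (i + 1) l → l < n → ∃ δ > 0, ∀ q ∈ segment ℝ (P (i + 1)) (P l),
      q ∉ Z (P 0) (P i) (P (i + 1)) δ := by
    intro l hw hl
    refine ⟨1, one_pos, ?_⟩
    intro q hq hZ
    obtain ⟨t, ⟨t0, t1⟩, rfl⟩ := mem_segment_iff.1 hq
    have hl' : l = 0 ∨ l = i ∨ l = i + 2 := by unfold WA at hw; omega
    have hZ1 := hZ.1
    rw [al_pt, al_c] at hZ1
    rcases hl' with rfl | rfl | rfl
    · rw [al_a hΔ] at hZ1; linarith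
    · rw [al_b] at hZ1; linarith
    · have hZ4 := hZ.2.2.1
      rw [be_pt, be_c] at hZ4
      rcases eq_or_lt_of_le t0 with h0 | h0
      · rw [← h0] at hZ1; simp at hZ1
      · have := mul_neg_of_pos_of_neg h0 hbe
        linarith
  by_cases h1 : k = i
  · subst h1; exact ei l hkl hl
  by_cases h2 : k = i + 1
  · subst h2; exact ej l hkl hl
  by_cases h3 : l = i
  · subst h3
    obtain ⟨δ, hδ, hq⟩ := ei k hkl.symm hk
    exact ⟨δ, hδ, fun q hq' => hq q (by rw [segment_symm]; exact hq')⟩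
  by_cases h4 : l = i + 1
  · subst h4
    obtain ⟨δ, hδ, hq⟩ := ej k hkl.symm hk
    exact ⟨δ, hδ, fun q hq' => hq q (by rw [segment_symm]; exact hq')⟩
  exact thin hΔ (h.meet k l i (i + 1) hk hl (by omega) (by omega) hkl wip h1 h2 h3 h4)

theorem exists_min_pos {α : Type*} (s : Finset α) (p : α → ℝ → Prop)
    (hp : ∀ x ∈ s, ∃ δ > 0, p x δ) (hmono : ∀ x ∈ s, ∀ δ δ', 0 < δ' → δ' ≤ δ → p x δ → p x δ') :
    ∃ δ > 0, ∀ x ∈ s, p x δ := by
  classical
  induction s using Finset.induction_on with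
  | empty => exact ⟨1, one_pos, by simp⟩
  | insert a s _ ih =>
    obtain ⟨δ1, h1, h1'⟩ := hp a (Finset.mem_insert_self _ _)
    obtain ⟨δ2, h2, h2'⟩ := ih (fun x hx => hp x (Finset.mem_insert_of_mem hx))
      (fun x hx => hmono x (Finset.mem_insert_of_mem hx))
    refine ⟨min δ1 δ2, lt_min h1 h2, ?_⟩
    intro x hx
    rcases Finset.mem_insert.1 hx with rfl | hx'
    · exact hmono x hx _ _ (lt_min h1 h2) (min_le_left _ _) h1'
    · exact hmono x hx _ _ (lt_min h1 h2) (min_le_right _ _) (h2' x hx')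

/-- the drawn set in terms of `P` -/
def drw (n : ℕ) (P : ℕ → ℝ × ℝ) : Set (ℝ × ℝ) :=
  {q | ∃ k l, k < n ∧ l < n ∧ WA n k l ∧ q ∈ segment ℝ (P k) (P l)}

theorem Pl.thin_all (h : Pl n P) {a b : ℕ} (ha : 2 ≤ a) (hb : b + 1 < n)
    (hg : ∀ i, a ≤ i → i ≤ b → Good P i) :
    ∃ δ > 0, ∀ i, a ≤ i → i < b → Z (P 0) (P i) (P (i + 1)) δ ⊆ (drw n P)ᶜ := by
  classical
  obtain ⟨δ, hδ, hall⟩ := exists_min_pos
    (((Finset.Ico a b) ×ˢ (Finset.range n ×ˢ Finset.range n)).filter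
      (fun x => WA n x.2.1 x.2.2))
    (fun x δ => ∀ q ∈ segment ℝ (P x.2.1) (P x.2.2), q ∉ Z (P 0) (P x.1) (P (x.1 + 1)) δ)
    (by
      rintro ⟨i, k, l⟩ hx
      simp only [Finset.mem_filter, Finset.mem_product, Finset.mem_Ico, Finset.mem_range] at hx
      exact h.edge_thin (by omega) (by omega) (hg i (by omega) (by omega))
        (hg (i + 1) (by omega) (by omega)) k l hx.1.2.1 hx.1.2.2 hx.2)
    (by
      intro x _ δ δ' _ hle hp q hq hZ
      exact hp q hq (Z_mono hle hZ))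
  refine ⟨δ, hδ, ?_⟩
  intro i hi1 hi2 q hq hd
  obtain ⟨k, l, hk, hl, hkl, hs⟩ := hd
  exact hall ⟨i, k, l⟩ (by
    simp only [Finset.mem_filter, Finset.mem_product, Finset.mem_Ico, Finset.mem_range]
    exact ⟨⟨⟨hi1, hi2⟩, hk, hl⟩, hkl⟩) q hs hq

/-- the point behind the rim vertex `k` -/
def zz (P : ℕ → ℝ × ℝ) (δ : ℝ) (k : ℕ) : ℝ × ℝ := pt (P 0) (P k) (1 + δ)

theorem zz_left {a b c : ℝ × ℝ} (hΔ : D a b c ≠ 0) {δ : ℝ} (hδ : 0 < δ) :
    pt a b (1 + δ) ∈ Z a b c δ := by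
  refine ⟨?_, ?_, ?_, ?_⟩
  · rw [al_pt, al_a hΔ, al_b]; linarith
  · rw [al_pt, al_a hΔ, al_b]; linarith
  · rw [be_pt, be_a, be_b hΔ]; linarith
  · rw [ga_pt, ga_a, ga_b]; linarith

theorem zz_right {a b c : ℝ × ℝ} (hΔ : D a b c ≠ 0) {δ : ℝ} (hδ : 0 < δ) :
    pt a c (1 + δ) ∈ Z a b c δ := by
  refine ⟨?_, ?_, ?_, ?_⟩
  · rw [al_pt, al_a hΔ, al_c]; linarith
  · rw [al_pt, al_a hΔ, al_c]; linarith
  · rw [be_pt, be_a, be_c]; linarith
  · rw [ga_pt, ga_a, ga_c hΔ]; linarith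

theorem mem_closure_aux {a b : ℝ × ℝ} {S : Set (ℝ × ℝ)} {δ : ℝ} (hδ : 0 < δ)
    (h : ∀ ε, 0 < ε → ε ≤ δ → pt a b (1 + ε) ∈ S) : b ∈ closure S := by
  have hc : Continuous fun t : ℝ => pt a b (1 + t) := by unfold pt; fun_prop
  have ht : Filter.Tendsto (fun t : ℝ => pt a b (1 + t)) (nhdsWithin 0 (Ioi 0)) (nhds b) := by
    have h0 : pt a b (1 + 0) = b := by unfold pt; simp
    have := hc.tendsto 0
    rw [h0] at this
    exact this.mono_left nhdsWithin_le_nhds
  refine mem_closure_of_tendsto ht ?_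
  have : Ioc (0 : ℝ) δ ∈ nhdsWithin (0 : ℝ) (Ioi 0) := Ioc_mem_nhdsGT hδ
  filter_upwards [this] with t ht
  exact h t ht.1 ht.2

theorem Pl.face (h : Pl n P) {a b : ℕ} (ha : 2 ≤ a) (hab : a < b) (hb : b + 1 < n)
    (hg : ∀ i, a ≤ i → i ≤ b → Good P i) :
    ∃ z ∉ drw n P, ∀ k, a ≤ k → k ≤ b → P k ∈ closure (connectedComponentIn (drw n P)ᶜ z) := by
  obtain ⟨δ, hδ, hZ⟩ := h.thin_all ha hb hg
  have hΔ : ∀ i, a ≤ i → i < b → D (P 0) (P i) (P (i + 1)) ≠ 0 := fun i h1 h2 =>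
    h.nondeg (show 0 < n by omega) (show i < n by omega) (show i + 1 < n by omega)
      (by unfold WA; omega) (by unfold WA; omega) (by unfold WA; omega)
  set F := (drw n P)ᶜ
  set A := connectedComponentIn F (zz P δ a)
  have hpre : ∀ i, IsPreconnected (Z (P 0) (P i) (P (i + 1)) δ) := fun i =>
    Z_convex.isPreconnected
  have hmem : ∀ j, a + j ≤ b → zz P δ (a + j) ∈ A := by
    intro j
    induction j with
    | zero =>
      intro _
      have h1 : zz P δ a ∈ F := hZ a le_rfl hab (zz_left (hΔ a le_rfl hab) hδ)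
      exact mem_connectedComponentIn h1
    | succ j ih =>
      intro hj
      have h1 := ih (by omega)
      have h2 := (hpre (a + j)).subset_connectedComponentIn
        (zz_left (hΔ (a + j) (by omega) (by omega)) hδ) (hZ (a + j) (by omega) (by omega))
      have h3 : A = connectedComponentIn F (zz P δ (a + j)) := connectedComponentIn_eq h1
      rw [h3]
      exact h2 (zz_right (hΔ (a + j) (by omega) (by omega)) hδ)
  have hsub : ∀ i, a ≤ i → i < b → Z (P 0) (P i) (P (i + 1)) δ ⊆ A := by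
    intro i h1 h2
    have h3 := hmem (i - a) (by omega)
    rw [show a + (i - a) = i by omega] at h3
    have h4 : A = connectedComponentIn F (zz P δ i) := connectedComponentIn_eq h3
    rw [h4]
    exact (hpre i).subset_connectedComponentIn (zz_left (hΔ i h1 h2) hδ) (hZ i h1 h2)
  refine ⟨zz P δ a, hZ a le_rfl hab (zz_left (hΔ a le_rfl hab) hδ), ?_⟩
  intro k hk1 hk2
  rcases hk2.lt_or_eq with hlt | heq
  · refine mem_closure_aux (a := P 0) hδ ?_
    intro ε hε hεδ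
    exact hsub k hk1 hlt (Z_mono hεδ (zz_left (hΔ k hk1 hlt) hε))
  · refine mem_closure_aux (a := P 0) hδ ?_
    intro ε hε hεδ
    have e : k = (b - 1) + 1 := by omega
    have h1 := zz_right (hΔ (b - 1) (by omega) (by omega)) hε
    rw [← e] at h1
    have h2 := hsub (b - 1) (by omega) (by omega)
    rw [← e] at h2
    exact h2 (Z_mono hεδ h1)

/-- A run of good indices. -/
theorem Pl.run (h : Pl n P) (hn : 4 ≤ n) {ℓ : ℕ} (hℓ : 3 * ℓ + 3 ≤ n) (hℓ1 : 1 ≤ ℓ) :
    ∃ a, 2 ≤ a ∧ a + ℓ < n ∧ ∀ i, a ≤ i → i ≤ a + ℓ - 1 → Good P i := by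
  by_contra hno
  push Not at hno
  obtain ⟨i, hi1, hi2, hi3⟩ := hno 2 le_rfl (by omega)
  obtain ⟨j, hj1, hj2, hj3⟩ := hno (2 + ℓ) (by omega) (by omega)
  obtain ⟨k, hk1, hk2, hk3⟩ := hno (2 + 2 * ℓ) (by omega) (by omega)
  have bi : Bad P i := (h.good_or_bad (by omega) (by omega)).resolve_left hi3
  have bj : Bad P j := (h.good_or_bad (by omega) (by omega)).resolve_left hj3
  have bk : Bad P k := (h.good_or_bad (by omega) (by omega)).resolve_left hk3
  exact h.no_three hn (show 2 ≤ i by omega) (show i < j by omega) (show j < k by omega) (by omega)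
    bi bj bk

end Run7.h50.T8
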