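import Pool.Agent.Run7.h215.Iface

/-!
# The wheel (for the lower bound T8)
-/

set_option autoImplicit false

namespace Run7.h50.T8

open Pool.Agent.Run7.h215

/-- adjacency of the wheel in terms of numbers: hub `0`, rim `1, …, n - 1` -/
def WA (n i j : ℕ) : Prop :=
  i ≠ j ∧ (i = 0 ∨ j = 0 ∨ i + 1 = j ∨ j + 1 = i ∨ (i = 1 ∧ j + 1 = n) ∨ (j = 1 ∧ i + 1 = n))

theorem WA.symm {n i j : ℕ} (h : WA n i j) : WA n j i := by
  unfold WA at *
  omega

/-- the wheel on `n` vertices -/
def wheel (n : ℕ) : SimpleGraph (Fin n) where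
  Adj i j := WA n i.1 j.1
  symm := ⟨fun _ _ h => h.symm⟩
  loopless := ⟨fun _ h => h.1 rfl⟩

theorem wheel_adj {n : ℕ} {i j : Fin n} : (wheel n).Adj i j ↔ WA n i.1 j.1 := Iff.rfl

theorem wheel_three {n : ℕ} (hn : 4 ≤ n) : ThreeConnected (wheel n) := by
  refine ⟨by simpa using hn, ?_⟩
  intro S hS
  by_cases h0 : (⟨0, by omega⟩ : Fin n) ∈ S
  · -- hub removed: at most one rim vertex removed
    have hone : ∀ x ∈ S, ∀ y ∈ S, x.1 ≠ 0 → y.1 ≠ 0 → x = y := by
      intro x hx y hy hx0 hy0
      by_contra hxy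
      have h3 : ({⟨0, by omega⟩, x, y} : Finset (Fin n)).card = 3 := by
        rw [Finset.card_eq_three]
        refine ⟨_, _, _, ?_, ?_, hxy, rfl⟩
        · intro hh; rw [← hh] at hx0; exact hx0 rfl
        · intro hh; rw [← hh] at hy0; exact hy0 rfl
      have h4 : ({⟨0, by omega⟩, x, y} : Finset (Fin n)) ⊆ S := by
        intro z hz
        simp only [Finset.mem_insert, Finset.mem_singleton] at hz
        rcases hz with rfl | rfl | rfl <;> assumption
      have := Finset.card_le_card h4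
      omega
    -- reachability between consecutive rim vertices
    have hadj : ∀ x y : {v : Fin n | v ∉ S}, WA n x.1.1 y.1.1 →
        ((wheel n).induce {v | v ∉ S}).Adj x y := fun x y h => h
    have hpos : ∀ x : {v : Fin n | v ∉ S}, 1 ≤ x.1.1 := by
      intro x
      by_contra hh
      have : x.1 = ⟨0, by omega⟩ := Fin.ext (by simp; omega)
      exact x.2 (this ▸ h0)
    -- go down from x to y if no removed vertex is between
    have hdown : ∀ (k : ℕ) (x y : {v : Fin n | v ∉ S}), x.1.1 = y.1.1 + k →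
        (∀ z : Fin n, y.1.1 ≤ z.1 → z.1 ≤ x.1.1 → z ∉ S) →
        ((wheel n).induce {v | v ∉ S}).Reachable x y := by
      intro k
      induction k with
      | zero =>
        intro x y h _
        have : x = y := Subtype.ext (Fin.ext (by omega))
        rw [this]
      | succ k ih =>
        intro x y h hz
        have hx := x.1.2
        let z : {v : Fin n | v ∉ S} := ⟨⟨x.1.1 - 1, by omega⟩, hz _ (by simp; omega) (by simp)⟩
        have h1 : ((wheel n).induce {v | v ∉ S}).Adj x z := by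
          apply hadj
          show WA n x.1.1 (x.1.1 - 1)
          unfold WA; omega
        have h2 := ih z y (by show x.1.1 - 1 = y.1.1 + k; omega) (by
          intro w hw1 hw2
          exact hz w hw1 (le_trans hw2 (by show x.1.1 - 1 ≤ x.1.1; omega)))
        exact h1.reachable.trans h2
    have hcon : ∀ x y : {v : Fin n | v ∉ S}, x.1.1 ≤ y.1.1 →
        ((wheel n).induce {v | v ∉ S}).Reachable x y := by
      intro x y hxy
      by_cases hz : ∀ z : Fin n, x.1.1 ≤ z.1 → z.1 ≤ y.1.1 → z ∉ S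
      · exact (hdown (y.1.1 - x.1.1) y x (by omega) hz).symm
      · push Not at hz
        obtain ⟨z, hz1, hz2, hz3⟩ := hz
        have hx1 := hpos x
        have hzx : z.1 ≠ x.1.1 := by
          intro h; exact x.2 ((Fin.ext h : z = x.1) ▸ hz3)
        have hzy : z.1 ≠ y.1.1 := by
          intro h; exact y.2 ((Fin.ext h : z = y.1) ▸ hz3)
        have honly : ∀ w : Fin n, w.1 ≠ 0 → w ∈ S → w = z := fun w hw0 hw =>
          hone w hw z hz3 hw0 (by omega)
        have hy := y.1.2
        -- x down to 1, 1 ~ n-1, n-1 down to y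
        let o : {v : Fin n | v ∉ S} := ⟨⟨1, by omega⟩, by
          intro h
          have := honly _ (by simp) h
          have := congrArg Fin.val this
          simp at this; omega⟩
        let t : {v : Fin n | v ∉ S} := ⟨⟨n - 1, by omega⟩, by
          intro h
          have := honly _ (by simp; omega) h
          have := congrArg Fin.val this
          simp at this; omega⟩
        have r1 := hdown (x.1.1 - 1) x o (by show x.1.1 = 1 + (x.1.1 - 1); omega) (by
          intro w hw1 hw2 hw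
          have hw1' : 1 ≤ w.1 := hw1
          have := honly w (by omega) hw
          rw [this] at hw2; omega)
        have r2 : ((wheel n).induce {v | v ∉ S}).Adj o t := by
          apply hadj
          show WA n 1 (n - 1)
          unfold WA; omega
        have r3 := hdown (n - 1 - y.1.1) t y (by show n - 1 = y.1.1 + (n - 1 - y.1.1); omega) (by
          intro w hw1 hw2 hw
          have hy1 := hpos y
          have := honly w (by omega) hw
          rw [this] at hw1; omega)
        exact r1.trans (r2.reachable.trans r3)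
    have hcon' : ∀ x y : {v : Fin n | v ∉ S},
        ((wheel n).induce {v | v ∉ S}).Reachable x y := by
      intro x y
      rcases le_total x.1.1 y.1.1 with h | h
      · exact hcon x y h
      · exact (hcon y x h).symm
    have hne : Nonempty {v : Fin n | v ∉ S} := by
      by_contra hh
      rw [not_nonempty_iff] at hh
      have : (Finset.univ : Finset (Fin n)) ⊆ S := by
        intro x _
        by_contra hx
        exact hh.elim ⟨x, hx⟩
      have := Finset.card_le_card this
      rw [Finset.card_univ, Fintype.card_fin] at this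
      omega
    exact { preconnected := hcon', nonempty := hne }
  · -- hub present
    let o : {v : Fin n | v ∉ S} := ⟨⟨0, by omega⟩, h0⟩
    have hr : ∀ x : {v : Fin n | v ∉ S}, ((wheel n).induce {v | v ∉ S}).Reachable x o := by
      intro x
      by_cases hx : x = o
      · rw [hx]
      · have : ((wheel n).induce {v | v ∉ S}).Adj x o := by
          show WA n x.1.1 0
          refine ⟨?_, Or.inr (Or.inl rfl)⟩
          intro h
          exact hx (Subtype.ext (Fin.ext h))
        exact this.reachable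
    exact { preconnected := fun x y => (hr x).trans (hr y).symm, nonempty := ⟨o⟩ }

/-! ## A plane drawing -/

/-- positions: hub far below the parabola, rim on the parabola -/
noncomputable def wp (n : ℕ) (j : ℕ) : ℝ × ℝ :=
  if j = 0 then (0, -((n : ℝ) ^ 2)) else ((j : ℝ), (j : ℝ) ^ 2)

theorem wp_zero (n : ℕ) : wp n 0 = (0, -((n : ℝ) ^ 2)) := by simp [wp]
theorem wp_pos {n j : ℕ} (h : 1 ≤ j) : wp n j = ((j : ℝ), (j : ℝ) ^ 2) := by
  simp [wp, show j ≠ 0 by omega]

theorem spoke {n j : ℕ} (hj : 1 ≤ j) {q : ℝ × ℝ} (hq : q ∈ segment ℝ (wp n 0) (wp n j)) :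
    0 ≤ q.1 ∧ q.1 ≤ j ∧ (j : ℝ) * (q.2 - q.1 ^ 2) = -((j - q.1) * ((n : ℝ) ^ 2 - j * q.1)) := by
  obtain ⟨s, t, hs, ht, hst, rfl⟩ := hq
  rw [wp_zero, wp_pos hj]
  simp only [Prod.smul_mk, smul_eq_mul, Prod.mk_add_mk]
  have hs' : s = 1 - t := by linarith
  have hj' : (0 : ℝ) ≤ j := Nat.cast_nonneg j
  subst hs'
  refine ⟨?_, ?_, ?_⟩
  · have := mul_nonneg ht hj'; linarith
  · have := mul_nonneg hs hj'; linarith
  · ring

theorem chord {n i j : ℕ} (hi : 1 ≤ i) (hij : i < j) {q : ℝ × ℝ}
    (hq : q ∈ segment ℝ (wp n i) (wp n j)) :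
    (i : ℝ) ≤ q.1 ∧ q.1 ≤ j ∧ q.2 - q.1 ^ 2 = (q.1 - i) * (j - q.1) := by
  obtain ⟨s, t, hs, ht, hst, rfl⟩ := hq
  rw [wp_pos hi, wp_pos (show 1 ≤ j by omega)]
  simp only [Prod.smul_mk, smul_eq_mul, Prod.mk_add_mk]
  have hs' : s = 1 - t := by linarith
  have hij' : (i : ℝ) < j := by exact_mod_cast hij
  subst hs'
  refine ⟨?_, ?_, ?_⟩
  · nlinarith
  · nlinarith
  · ring

/-- a point of a spoke on or above the parabola is its rim end -/
theorem spoke_end {n j : ℕ} (hj : 1 ≤ j) (hjn : j < n) {q : ℝ × ℝ}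
    (hq : q ∈ segment ℝ (wp n 0) (wp n j)) (h : 0 ≤ q.2 - q.1 ^ 2) : q = wp n j := by
  obtain ⟨h1, h2, h3⟩ := spoke hj hq
  have hj' : (0 : ℝ) < j := by exact_mod_cast hj
  have hjn' : (j : ℝ) < n := by exact_mod_cast hjn
  have h4 : 0 < (n : ℝ) ^ 2 - j * q.1 := by nlinarith
  have h5 : 0 ≤ (j : ℝ) * (q.2 - q.1 ^ 2) := mul_nonneg hj'.le h
  have h6 : ((j : ℝ) - q.1) * ((n : ℝ) ^ 2 - j * q.1) ≤ 0 := by linarith
  have h7 : (j : ℝ) - q.1 ≤ 0 := by
    by_contra hh; push Not at hh
    have := mul_pos hh h4; linarith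
  have h8 : q.1 = j := by linarith
  have h9 : q.2 = (j : ℝ) ^ 2 := by
    rw [h8] at h3
    have : (j : ℝ) * (q.2 - (j : ℝ) ^ 2) = 0 := by rw [h3]; ring
    rcases mul_eq_zero.1 this with h | h
    · linarith
    · linarith
  rw [wp_pos hj]
  exact Prod.ext h8 h9

/-- normal form of edges -/
theorem edge_cases {n i j : ℕ} (hi : i < n) (hj : j < n) (h : WA n i j) :
    ∃ a b, ((a = i ∧ b = j) ∨ (a = j ∧ b = i)) ∧
      ((a = 0 ∧ 1 ≤ b) ∨ (1 ≤ a ∧ b = a + 1) ∨ (a = 1 ∧ b + 1 = n ∧ 3 ≤ n)) ∧ a < n ∧ b < n := by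
  unfold WA at h
  rcases lt_or_ge i j with hij | hij
  · exact ⟨i, j, Or.inl ⟨rfl, rfl⟩, by omega, hi, hj⟩
  · exact ⟨j, i, Or.inr ⟨rfl, rfl⟩, by omega, hj, hi⟩

theorem seg_norm {n i j a b : ℕ} (h : (a = i ∧ b = j) ∨ (a = j ∧ b = i)) {q : ℝ × ℝ}
    (hq : q ∈ segment ℝ (wp n i) (wp n j)) : q ∈ segment ℝ (wp n a) (wp n b) := by
  rcases h with ⟨rfl, rfl⟩ | ⟨rfl, rfl⟩
  · exact hq
  · rw [segment_symm]; exact hq

theorem wp_inj {n i j : ℕ} (h : wp n i = wp n j) : i = j := by
  by_cases hi : i = 0 <;> by_cases hj : j = 0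
  · omega
  · rw [hi, wp_zero, wp_pos (by omega)] at h
    have := congrArg Prod.fst h
    simp only at this
    have : (j : ℝ) = 0 := this.symm
    exact absurd (by exact_mod_cast this) hj
  · rw [hj, wp_zero, wp_pos (by omega)] at h
    have := congrArg Prod.fst h
    simp only at this
    exact absurd (by exact_mod_cast this) hi
  · rw [wp_pos (by omega), wp_pos (by omega)] at h
    have := congrArg Prod.fst h
    simp only at this
    exact_mod_cast this

theorem wp_off {n i j k : ℕ} (hi : i < n) (hj : j < n) (h : WA n i j)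
    (hq : wp n k ∈ segment ℝ (wp n i) (wp n j)) : k = i ∨ k = j := by
  obtain ⟨a, b, hab, hc, ha, hb⟩ := edge_cases hi hj h
  have hq' := seg_norm hab hq
  suffices k = a ∨ k = b by omega
  by_cases hk0 : k = 0
  · by_cases ha0 : a = 0
    · omega
    · have hch := chord (n := n) (show 1 ≤ a by omega) (show a < b by omega) hq'
      rw [hk0, wp_zero] at hch
      have : (a : ℝ) ≤ 0 := hch.1
      have : (a : ℝ) ≤ ((0 : ℕ) : ℝ) := by simpa using this
      have : a ≤ 0 := by exact_mod_cast this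
      omega
  · have hk1 : 1 ≤ k := by omega
    rcases hc with ⟨ha0, hb1⟩ | hc
    · subst ha0
      right
      have := spoke_end hb1 hb hq' (by rw [wp_pos hk1]; simp)
      exact wp_inj this
    · have ha1 : 1 ≤ a := by omega
      have hab' : a < b := by omega
      have hch := chord (n := n) ha1 hab' hq'
      rw [wp_pos hk1] at hch
      simp only [sub_self] at hch
      rcases mul_eq_zero.1 hch.2.2.symm with h | h
      · left
        have : (k : ℝ) = a := by linarith
        exact_mod_cast this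
      · right
        have : (k : ℝ) = b := by linarith
        exact_mod_cast this

theorem wp_meet {n i j i' j' : ℕ} (hn : 4 ≤ n) (hi : i < n) (hj : j < n) (hi' : i' < n)
    (hj' : j' < n) (h : WA n i j) (h' : WA n i' j')
    (hne : ¬ ((i = i' ∧ j = j') ∨ (i = j' ∧ j = i'))) {q : ℝ × ℝ}
    (hq : q ∈ segment ℝ (wp n i) (wp n j)) (hq' : q ∈ segment ℝ (wp n i') (wp n j')) :
    ∃ w, (w = i ∨ w = j) ∧ (w = i' ∨ w = j') ∧ q = wp n w := by
  obtain ⟨a, b, hab, hc, ha, hb⟩ := edge_cases hi hj h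
  obtain ⟨a', b', hab', hc', ha', hb'⟩ := edge_cases hi' hj' h'
  have k1 := seg_norm hab hq
  have k2 := seg_norm hab' hq'
  have hne' : ¬ (a = a' ∧ b = b') := by omega
  suffices ∃ w, (w = a ∨ w = b) ∧ (w = a' ∨ w = b') ∧ q = wp n w by
    obtain ⟨w, h1, h2, h3⟩ := this
    exact ⟨w, by omega, by omega, h3⟩
  -- chord-spoke
  have cs : ∀ j a b, 1 ≤ j → j < n → 1 ≤ a → a < b → b < n →
      q ∈ segment ℝ (wp n 0) (wp n j) → q ∈ segment ℝ (wp n a) (wp n b) →
      q = wp n j ∧ (j = a ∨ j = b) := by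
    intro j a b hj hjn ha hab hb hs hch
    obtain ⟨c1, c2, c3⟩ := chord ha hab hch
    have hnn : 0 ≤ q.2 - q.1 ^ 2 := by
      rw [c3]; exact mul_nonneg (by linarith) (by linarith)
    have e := spoke_end hj hjn hs hnn
    refine ⟨e, ?_⟩
    rw [e, wp_pos hj] at c3
    simp only [sub_self] at c3
    rcases mul_eq_zero.1 c3.symm with h | h
    · left
      have : (j : ℝ) = a := by linarith
      exact_mod_cast this
    · right
      have : (j : ℝ) = b := by linarith
      exact_mod_cast this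
  -- consecutive chords
  have cc : ∀ a c, 1 ≤ a → a < c → c + 1 < n + 1 →
      q ∈ segment ℝ (wp n a) (wp n (a + 1)) → q ∈ segment ℝ (wp n c) (wp n (c + 1)) →
      q = wp n c ∧ c = a + 1 := by
    intro a c ha hac hcn h1 h2
    obtain ⟨c1, c2, c3⟩ := chord ha (Nat.lt_succ_self a) h1
    obtain ⟨d1, d2, d3⟩ := chord (show 1 ≤ c by omega) (Nat.lt_succ_self c) h2
    have e1 : (c : ℝ) ≤ ((a + 1 : ℕ) : ℝ) := d1.trans c2
    have e2 : c ≤ a + 1 := by exact_mod_cast e1
    have e3 : c = a + 1 := by omega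
    refine ⟨?_, e3⟩
    have e4 : q.1 = c := le_antisymm (by rw [e3]; exact c2) d1
    rw [wp_pos (show 1 ≤ c by omega)]
    refine Prod.ext e4 ?_
    rw [e4] at d3
    simp only [sub_self, zero_mul] at d3
    show q.2 = (c : ℝ) ^ 2
    linarith
  -- consecutive chord and closing chord
  have cl : ∀ a b, 1 ≤ a → a + 1 < n → b + 1 = n →
      q ∈ segment ℝ (wp n a) (wp n (a + 1)) → q ∈ segment ℝ (wp n 1) (wp n b) →
      (q = wp n 1 ∧ a = 1) ∨ (q = wp n b ∧ b = a + 1) := by
    intro a b ha han hb h1 h2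
    obtain ⟨c1, c2, c3⟩ := chord ha (Nat.lt_succ_self a) h1
    obtain ⟨d1, d2, d3⟩ := chord le_rfl (show 1 < b by omega) h2
    push_cast at c2 c3 d1 d2 d3
    have hb' : (a : ℝ) + 1 ≤ b := by exact_mod_cast (show a + 1 ≤ b by omega)
    have ha' : (1 : ℝ) ≤ a := by exact_mod_cast ha
    have key : ((a : ℝ) + 1 - q.1) * ((a - 1) * (b - a)) + (q.1 - a) * (a * (b - a - 1)) = 0 := by
      have : (q.1 - 1) * (b - q.1) - (q.1 - a) * ((a : ℝ) + 1 - q.1) = 0 := by
        rw [← d3, ← c3]; ring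
      linarith [this]
    have p1 : 0 ≤ ((a : ℝ) + 1 - q.1) * ((a - 1) * (b - a)) :=
      mul_nonneg (by linarith) (mul_nonneg (by linarith) (by linarith))
    have p2 : 0 ≤ (q.1 - a) * ((a : ℝ) * (b - a - 1)) :=
      mul_nonneg (by linarith) (mul_nonneg (by linarith) (by linarith))
    have z1 : ((a : ℝ) + 1 - q.1) * ((a - 1) * (b - a)) = 0 := by linarith
    have z2 : (q.1 - a) * ((a : ℝ) * (b - a - 1)) = 0 := by linarith
    by_cases hba : b = a + 1
    · right
      refine ⟨?_, hba⟩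
      have hb1 : 1 < a := by omega
      have hb2 : (1 : ℝ) < a := by exact_mod_cast hb1
      have hq1 : q.1 = b := by
        rcases mul_eq_zero.1 z1 with h | h
        · rw [hba]; push_cast; linarith
        · exfalso
          have : 0 < ((a : ℝ) - 1) * (b - a) := mul_pos (by linarith) (by linarith)
          linarith
      rw [wp_pos (show 1 ≤ b by omega)]
      refine Prod.ext hq1 ?_
      rw [hq1] at d3
      simp only [sub_self, mul_zero] at d3
      show q.2 = (b : ℝ) ^ 2
      linarith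
    · left
      have hlt : (a : ℝ) + 1 < b := by exact_mod_cast (show a + 1 < b by omega)
      have hq1 : q.1 = a := by
        rcases mul_eq_zero.1 z2 with h | h
        · linarith
        · exfalso
          have : 0 < (a : ℝ) * (b - a - 1) := mul_pos (by linarith) (by linarith)
          linarith
      rw [hq1] at z1
      have : (a : ℝ) = 1 := by
        have h1 : ((a : ℝ) + 1 - a) = 1 := by ring
        rw [h1, one_mul] at z1
        rcases mul_eq_zero.1 z1 with h | h
        · linarith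
        · linarith
      have ha1 : a = 1 := by exact_mod_cast this
      refine ⟨?_, ha1⟩
      rw [wp_pos le_rfl]
      refine Prod.ext ?_ ?_
      · show q.1 = ((1 : ℕ) : ℝ)
        rw [hq1, ha1]
      · show q.2 = ((1 : ℕ) : ℝ) ^ 2
        rw [hq1, this] at d3
        push_cast
        linarith
  rcases hc with ⟨ha0, hb1⟩ | hc
  · rcases hc' with ⟨ha0', hb1'⟩ | hc'
    · -- two spokes
      subst ha0 ha0'
      refine ⟨0, Or.inl rfl, Or.inl rfl, ?_⟩
      obtain ⟨s1, s2, s3⟩ := spoke hb1 k1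
      obtain ⟨t1, t2, t3⟩ := spoke hb1' k2
      have hbb : b ≠ b' := fun h => hne' ⟨rfl, h⟩
      have p1 : (0 : ℝ) < b := by exact_mod_cast hb1
      have p2 : (0 : ℝ) < b' := by exact_mod_cast hb1'
      have p3 : (b : ℝ) < n := by exact_mod_cast hb
      have p4 : (b' : ℝ) < n := by exact_mod_cast hb'
      have hK : (b : ℝ) * b' < (n : ℝ) ^ 2 := by nlinarith
      have e : q.1 * (((b : ℝ) - b') * ((n : ℝ) ^ 2 - b * b')) = 0 := by
        have e1 : (b : ℝ) * b' * (q.2 - q.1 ^ 2)
            = -(b' * ((b - q.1) * ((n : ℝ) ^ 2 - b * q.1))) := by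
          have : (b' : ℝ) * ((b : ℝ) * (q.2 - q.1 ^ 2))
            = b' * (-((b - q.1) * ((n : ℝ) ^ 2 - b * q.1))) := by rw [s3]
          linarith
        have e2 : (b : ℝ) * b' * (q.2 - q.1 ^ 2)
            = -(b * ((b' - q.1) * ((n : ℝ) ^ 2 - b' * q.1))) := by
          have : (b : ℝ) * ((b' : ℝ) * (q.2 - q.1 ^ 2))
            = b * (-((b' - q.1) * ((n : ℝ) ^ 2 - b' * q.1))) := by rw [t3]
          linarith
        have e3 : (b' : ℝ) * ((b - q.1) * ((n : ℝ) ^ 2 - b * q.1))
            = b * ((b' - q.1) * ((n : ℝ) ^ 2 - b' * q.1)) := by linarith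
        linear_combination e3
      have hx : q.1 = 0 := by
        rcases mul_eq_zero.1 e with h | h
        · exact h
        · exfalso
          rcases mul_eq_zero.1 h with h | h
          · exact hbb (by exact_mod_cast (sub_eq_zero.1 h))
          · linarith
      rw [wp_zero]
      refine Prod.ext hx ?_
      rw [hx] at s3
      show q.2 = -((n : ℝ) ^ 2)
      have : (b : ℝ) * (q.2 + (n : ℝ) ^ 2) = 0 := by linarith
      rcases mul_eq_zero.1 this with h | h
      · linarith
      · linarith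
    · subst ha0
      obtain ⟨e1, e2⟩ := cs b a' b' hb1 hb (by omega) (by omega) hb' k1 k2
      exact ⟨b, Or.inr rfl, e2, e1⟩
  · rcases hc' with ⟨ha0', hb1'⟩ | hc'
    · subst ha0'
      obtain ⟨e1, e2⟩ := cs b' a b hb1' hb' (by omega) (by omega) hb k2 k1
      exact ⟨b', e2, Or.inr rfl, e1⟩
    · rcases hc with ⟨ha1, hb1⟩ | ⟨ha1, hb1, h3⟩
      · rcases hc' with ⟨ha1', hb1'⟩ | ⟨ha1', hb1', h3'⟩
        · subst hb1 hb1'
          rcases lt_trichotomy a a' with hlt | heq | hgt
          · obtain ⟨e1, e2⟩ := cc a a' ha1 hlt (by omega) k1 k2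
            exact ⟨a', Or.inr e2, Or.inl rfl, e1⟩
          · exact absurd ⟨heq, by omega⟩ hne'
          · obtain ⟨e1, e2⟩ := cc a' a ha1' hgt (by omega) k2 k1
            exact ⟨a, Or.inl rfl, Or.inr e2, e1⟩
        · subst hb1 ha1'
          rcases cl a b' ha1 hb hb1' k1 k2 with ⟨e1, e2⟩ | ⟨e1, e2⟩
          · exact ⟨1, Or.inl e2.symm, Or.inl rfl, e1⟩
          · exact ⟨b', Or.inr e2, Or.inr rfl, e1⟩
      · rcases hc' with ⟨ha1', hb1'⟩ | ⟨ha1', hb1', h3'⟩
        · subst hb1' ha1
          rcases cl a' b ha1' hb' hb1 k2 k1 with ⟨e1, e2⟩ | ⟨e1, e2⟩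
          · exact ⟨1, Or.inl rfl, Or.inl e2.symm, e1⟩
          · exact ⟨b, Or.inr rfl, Or.inr e2, e1⟩
        · exact absurd ⟨by omega, by omega⟩ hne'

theorem wheel_plane {n : ℕ} (hn : 4 ≤ n) : IsPlaneDrawing (wheel n) (fun v => wp n v.1) := by
  refine ⟨?_, ?_, ?_⟩
  · intro x y h
    exact Fin.ext (wp_inj h)
  · intro u v w h hw
    rcases wp_off u.2 v.2 h hw with h | h
    · exact Or.inl (Fin.ext h)
    · exact Or.inr (Fin.ext h)
  · intro u v u' v' h h' hne q hq hq'
    have hne' : ¬ ((u.1 = u'.1 ∧ v.1 = v'.1) ∨ (u.1 = v'.1 ∧ v.1 = u'.1)) := by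
      rintro (⟨h1, h2⟩ | ⟨h1, h2⟩)
      · exact hne (by rw [Fin.ext h1, Fin.ext h2])
      · exact hne (by rw [Fin.ext h1, Fin.ext h2, Sym2.eq_swap])
    obtain ⟨w, h1, h2, h3⟩ := wp_meet hn u.2 v.2 u'.2 v'.2 h h' hne' hq hq'
    have hw : w < n := by
      rcases h1 with rfl | rfl
      · exact u.2
      · exact v.2
    refine ⟨⟨w, hw⟩, ?_, ?_, h3⟩
    · rcases h1 with h | h
      · exact Or.inl (Fin.ext h)
      · exact Or.inr (Fin.ext h)
    · rcases h2 with h | h
      · exact Or.inl (Fin.ext h)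
      · exact Or.inr (Fin.ext h)

end Run7.h50.T8
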