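import Pool.Agent.Run7.h50.T8.Geo
import Pool.Agent.Run7.h50.T8.Wheel

/-!
# The fan of triangles at the hub of a drawn wheel (for the lower bound T8)
-/

set_option autoImplicit false

namespace Run7.h50.T8

open Pool.Agent.Run7.h215

/-- the facts used about a plane drawing of the wheel -/
structure Pl (n : ℕ) (P : ℕ → ℝ × ℝ) : Prop where
  off : ∀ i j k, i < n → j < n → k < n → WA n i j → P k ∈ segment ℝ (P i) (P j) → k = i ∨ k = j
  meet : ∀ i j i' j', i < n → j < n → i' < n → j' < n → WA n i j → WA n i' j' →
    i ≠ i' → i ≠ j' → j ≠ i' → j ≠ j' →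
    ∀ q ∈ segment ℝ (P i) (P j), q ∉ segment ℝ (P i') (P j')

theorem mul_of_div {x y : ℝ} (hy : y ≠ 0) (h : 0 < x / y) : 0 < x * y := by
  have : x * y = (x / y) * (y * y) := by field_simp
  rw [this]
  exact mul_pos h (mul_self_pos.2 hy)

theorem div_of_mul {x y : ℝ} (hy : y ≠ 0) (h : 0 < x * y) : 0 < x / y := by
  have : x / y = (x * y) / (y * y) := by field_simp
  rw [this]
  exact div_pos h (mul_self_pos.2 hy)

variable {n : ℕ} {P : ℕ → ℝ × ℝ}

theorem Pl.nondeg (h : Pl n P) {i j k : ℕ} (hi : i < n) (hj : j < n) (hk : k < n)
    (hij : WA n i j) (hjk : WA n j k) (hik : WA n i k) : D (P i) (P j) (P k) ≠ 0 := by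
  intro h0
  have hne : P i ≠ P j := by
    intro he
    have : P i ∈ segment ℝ (P j) (P k) := by rw [he]; exact left_mem_segment ℝ _ _
    rcases h.off j k i hj hk hi hjk this with h' | h'
    · exact hij.1 h'
    · exact hik.1 h'
  rcases collinear_cases h0 hne with h' | h' | h'
  · rcases h.off j k i hj hk hi hjk h' with h' | h'
    · exact hij.1 h'
    · exact hik.1 h'
  · rcases h.off i k j hi hk hj hik h' with h' | h'
    · exact hij.1 h'.symm
    · exact hjk.1 h'
  · rcases h.off i j k hi hj hk hij h' with h' | h'
    · exact hik.1 h'.symm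
    · exact hjk.1 h'.symm

theorem Pl.walk (h : Pl n P) {i e s t : ℕ} (hn : 0 < n) (hi : i < n) (he : e < n) (hs : s < n)
    (ht : t < n) (h0i : WA n 0 i) (hie : WA n i e) (h0e : WA n 0 e) (hst : WA n s t)
    (s0 : s ≠ 0) (si : s ≠ i) (se : s ≠ e) (t0 : t ≠ 0) (ti : t ≠ i) (te : t ≠ e)
    (hin : Inside (P 0) (P i) (P e) (P s)) : Inside (P 0) (P i) (P e) (P t) := by
  refine step_inside (h.nondeg hn hi he h0i hie h0e) ?_ ?_ ?_ hin
  · exact h.meet s t 0 i hs ht hn hi hst h0i s0 si t0 ti
  · exact h.meet s t i e hs ht hi he hst hie si se ti te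
  · exact h.meet s t 0 e hs ht hn he hst h0e s0 se t0 te

/-- If the neighbours `i - 1`, `i + 1` are on the same side of the line through the hub and `i`,
then all the other rim vertices are on this side. -/
theorem Pl.all_side (h : Pl n P) (hn : 4 ≤ n) {i : ℕ} (hi : 2 ≤ i) (hi' : i + 1 < n)
    (hbad : 0 < D (P 0) (P i) (P (i - 1)) * D (P 0) (P i) (P (i + 1))) :
    ∀ k, 1 ≤ k → k < n → k ≠ i → 0 < D (P 0) (P i) (P k) * D (P 0) (P i) (P (i + 1)) := by
  have w0i : WA n 0 i := by unfold WA; omega
  have w0p : WA n 0 (i + 1) := by unfold WA; omega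
  have w0m : WA n 0 (i - 1) := by unfold WA; omega
  have wip : WA n i (i + 1) := by unfold WA; omega
  have wim : WA n i (i - 1) := by unfold WA; omega
  have hΔ := h.nondeg (show 0 < n by omega) (show i < n by omega) hi' w0i wip w0p
  have hga : 0 < ga (P 0) (P i) (P (i + 1)) (P (i - 1)) := div_of_mul hΔ hbad
  have hd := dich hΔ hga
    (h.meet 0 (i - 1) i (i + 1) (by omega) (by omega) (by omega) hi' w0m wip (by omega)
      (by omega) (by omega) (by omega))
    (h.meet i (i - 1) 0 (i + 1) (by omega) (by omega) (by omega) hi' wim w0p (by omega)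
      (by omega) (by omega) (by omega))
  rcases hd with hin | ⟨ha, hb⟩
  · -- all inside the triangle `0, i, i + 1`
    have hlow : ∀ j, j + 2 ≤ i → Inside (P 0) (P i) (P (i + 1)) (P (i - 1 - j)) := by
      intro j
      induction j with
      | zero => intro _; simpa using hin
      | succ j ih =>
        intro hj
        have := ih (by omega)
        exact h.walk (by omega) (by omega) hi' (by omega) (by omega) w0i wip w0p
          (by unfold WA; omega) (by omega) (by omega) (by omega) (by omega) (by omega)
          (by omega) this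
    have hhigh : ∀ j, i + 1 < n - 1 - j → j + 1 ≤ n →
        Inside (P 0) (P i) (P (i + 1)) (P (n - 1 - j)) := by
      intro j
      induction j with
      | zero =>
        intro hj _
        have h1 := hlow (i - 2) (by omega)
        rw [show i - 1 - (i - 2) = 1 by omega] at h1
        exact h.walk (by omega) (by omega) hi' (by omega) (by omega) w0i wip w0p
          (by unfold WA; omega) (by omega) (by omega) (by omega) (by omega) (by omega)
          (by omega) h1
      | succ j ih =>
        intro hj hj'
        have := ih (by omega) (by omega)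
        exact h.walk (by omega) (by omega) hi' (by omega) (by omega) w0i wip w0p
          (by unfold WA; omega) (by omega) (by omega) (by omega) (by omega) (by omega)
          (by omega) this
    intro k hk1 hkn hki
    rcases lt_trichotomy k (i + 1) with hlt | heq | hgt
    · have := hlow (i - 1 - k) (by omega)
      rw [show i - 1 - (i - 1 - k) = k by omega] at this
      exact mul_of_div hΔ this.2.2
    · rw [heq]; exact mul_self_pos.2 hΔ
    · have := hhigh (n - 1 - k) (by omega) (by omega)
      rw [show n - 1 - (n - 1 - k) = k by omega] at this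
      exact mul_of_div hΔ this.2.2
  · obtain ⟨hΔ', hin⟩ := swap_inside hΔ hga ha hb
    have hup : ∀ j, i + 1 + j < n → Inside (P 0) (P i) (P (i - 1)) (P (i + 1 + j)) := by
      intro j
      induction j with
      | zero => intro _; simpa using hin
      | succ j ih =>
        intro hj
        have := ih (by omega)
        exact h.walk (by omega) (by omega) (by omega) (by omega) (by omega) w0i wim w0m
          (by unfold WA; omega) (by omega) (by omega) (by omega) (by omega) (by omega)
          (by omega) this
    have hlow : ∀ j, 1 + j < i - 1 → Inside (P 0) (P i) (P (i - 1)) (P (1 + j)) := by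
      intro j
      induction j with
      | zero =>
        intro hj
        have h1 := hup (n - 1 - (i + 1)) (by omega)
        rw [show i + 1 + (n - 1 - (i + 1)) = n - 1 by omega] at h1
        exact h.walk (by omega) (by omega) (by omega) (by omega) (by omega) w0i wim w0m
          (by unfold WA; omega) (by omega) (by omega) (by omega) (by omega) (by omega)
          (by omega) h1
      | succ j ih =>
        intro hj
        have := ih (by omega)
        exact h.walk (by omega) (by omega) (by omega) (by omega) (by omega) w0i wim w0m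
          (by unfold WA; omega) (by omega) (by omega) (by omega) (by omega) (by omega)
          (by omega) this
    have hfin : ∀ x : ℝ, 0 < x * D (P 0) (P i) (P (i - 1)) →
        0 < x * D (P 0) (P i) (P (i + 1)) := by
      intro x hx
      have h1 := mul_pos hx hbad
      have h2 : 0 < D (P 0) (P i) (P (i - 1)) * D (P 0) (P i) (P (i - 1)) := mul_self_pos.2 hΔ'
      have h3 : x * D (P 0) (P i) (P (i - 1)) *
        (D (P 0) (P i) (P (i - 1)) * D (P 0) (P i) (P (i + 1)))
        = (D (P 0) (P i) (P (i - 1)) * D (P 0) (P i) (P (i - 1))) *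
          (x * D (P 0) (P i) (P (i + 1))) := by ring
      rw [h3] at h1
      exact (pos_iff_pos_of_mul_pos h1).1 h2
    intro k hk1 hkn hki
    rcases lt_trichotomy k (i - 1) with hlt | heq | hgt
    · have := hlow (k - 1) (by omega)
      rw [show 1 + (k - 1) = k by omega] at this
      exact hfin _ (mul_of_div hΔ' this.2.2)
    · rw [heq]; exact hbad
    · have := hup (k - (i + 1)) (by omega)
      rw [show i + 1 + (k - (i + 1)) = k by omega] at this
      exact hfin _ (mul_of_div hΔ' this.2.2)

/-- the two neighbours of `i` are on the same side of the line through the hub and `i` -/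
def Bad (P : ℕ → ℝ × ℝ) (i : ℕ) : Prop :=
  0 < D (P 0) (P i) (P (i - 1)) * D (P 0) (P i) (P (i + 1))

theorem Pl.no_three (h : Pl n P) (hn : 4 ≤ n) {i j k : ℕ} (hi : 2 ≤ i) (hij : i < j) (hjk : j < k)
    (hk : k + 1 < n) (bi : Bad P i) (bj : Bad P j) (bk : Bad P k) : False := by
  have comb : ∀ x y z : ℝ, 0 < x * z → 0 < y * z → 0 < x * y := by
    intro x y z hx hy
    have h1 := mul_pos hx hy
    have h2 : x * z * (y * z) = (x * y) * (z * z) := by ring
    rw [h2] at h1
    by_contra hh
    push Not at hh
    have := mul_nonneg (neg_nonneg.2 hh) (mul_self_nonneg z)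
    linarith
  have e1 := comb _ _ _ (h.all_side hn hi (by omega) bi j (by omega) (by omega) (by omega))
    (h.all_side hn hi (by omega) bi k (by omega) (by omega) (by omega))
  have e2 := comb _ _ _ (h.all_side hn (show 2 ≤ j by omega) (by omega) bj i (by omega) (by omega)
    (by omega)) (h.all_side hn (show 2 ≤ j by omega) (by omega) bj k (by omega) (by omega)
    (by omega))
  have e3 := comb _ _ _ (h.all_side hn (show 2 ≤ k by omega) (by omega) bk i (by omega) (by omega)
    (by omega)) (h.all_side hn (show 2 ≤ k by omega) (by omega) bk j (by omega) (by omega)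
    (by omega))
  have s1 : D (P 0) (P j) (P i) = -D (P 0) (P i) (P j) := by simp only [D]; ring
  have s2 : D (P 0) (P k) (P i) = -D (P 0) (P i) (P k) := by simp only [D]; ring
  have s3 : D (P 0) (P k) (P j) = -D (P 0) (P j) (P k) := by simp only [D]; ring
  rw [s1] at e2
  rw [s2, s3] at e3
  have := mul_pos (mul_pos e1 e2) e3
  have h2 : D (P 0) (P i) (P j) * D (P 0) (P i) (P k) *
      (-D (P 0) (P i) (P j) * D (P 0) (P j) (P k)) *
      (-D (P 0) (P i) (P k) * -D (P 0) (P j) (P k))
      = -((D (P 0) (P i) (P j) * D (P 0) (P i) (P k) * D (P 0) (P j) (P k)) *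
        (D (P 0) (P i) (P j) * D (P 0) (P i) (P k) * D (P 0) (P j) (P k))) := by ring
  rw [h2] at this
  have := mul_self_nonneg (D (P 0) (P i) (P j) * D (P 0) (P i) (P k) * D (P 0) (P j) (P k))
  linarith

end Run7.h50.T8
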