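import Mathlib

/-!
# Barycentric coordinates and segments in the plane (for the lower bound T8)
-/

set_option autoImplicit false

namespace Run7.h50.T8

open Set

/-- twice the signed area of the triangle -/
def D (a b c : ℝ × ℝ) : ℝ := (b.1 - a.1) * (c.2 - a.2) - (b.2 - a.2) * (c.1 - a.1)

noncomputable def al (a b c q : ℝ × ℝ) : ℝ := D q b c / D a b c
noncomputable def be (a b c q : ℝ × ℝ) : ℝ := D a q c / D a b c
noncomputable def ga (a b c q : ℝ × ℝ) : ℝ := D a b q / D a b c

variable {a b c : ℝ × ℝ}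

theorem sum_one (h : D a b c ≠ 0) (q : ℝ × ℝ) : al a b c q + be a b c q + ga a b c q = 1 := by
  unfold al be ga
  rw [← add_div, ← add_div, div_eq_one_iff_eq h]
  simp only [D]; ring

theorem repr (h : D a b c ≠ 0) (q : ℝ × ℝ) :
    q = al a b c q • a + be a b c q • b + ga a b c q • c := by
  unfold al be ga
  ext
  · simp only [Prod.fst_add, Prod.smul_fst, smul_eq_mul]
    field_simp
    simp only [D]; ring
  · simp only [Prod.snd_add, Prod.smul_snd, smul_eq_mul]
    field_simp
    simp only [D]; ring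

/-- the point of the segment with parameter `t` -/
def pt (r s : ℝ × ℝ) (t : ℝ) : ℝ × ℝ := (1 - t) • r + t • s

theorem mem_segment_iff {r s q : ℝ × ℝ} :
    q ∈ segment ℝ r s ↔ ∃ t ∈ Icc (0 : ℝ) 1, q = pt r s t := by
  rw [segment_eq_image]
  constructor
  · rintro ⟨t, ht, rfl⟩; exact ⟨t, ht, rfl⟩
  · rintro ⟨t, ht, rfl⟩; exact ⟨t, ht, rfl⟩

theorem al_pt (r s : ℝ × ℝ) (t : ℝ) :
    al a b c (pt r s t) = (1 - t) * al a b c r + t * al a b c s := by
  unfold al pt
  rw [← mul_div_assoc, ← mul_div_assoc, ← add_div]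
  congr 1
  simp only [D, Prod.fst_add, Prod.smul_fst, smul_eq_mul, Prod.snd_add, Prod.smul_snd]; ring

theorem be_pt (r s : ℝ × ℝ) (t : ℝ) :
    be a b c (pt r s t) = (1 - t) * be a b c r + t * be a b c s := by
  unfold be pt
  rw [← mul_div_assoc, ← mul_div_assoc, ← add_div]
  congr 1
  simp only [D, Prod.fst_add, Prod.smul_fst, smul_eq_mul, Prod.snd_add, Prod.smul_snd]; ring

theorem ga_pt (r s : ℝ × ℝ) (t : ℝ) :
    ga a b c (pt r s t) = (1 - t) * ga a b c r + t * ga a b c s := by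
  unfold ga pt
  rw [← mul_div_assoc, ← mul_div_assoc, ← add_div]
  congr 1
  simp only [D, Prod.fst_add, Prod.smul_fst, smul_eq_mul, Prod.snd_add, Prod.smul_snd]; ring

theorem al_a (h : D a b c ≠ 0) : al a b c a = 1 := div_self h
theorem be_b (h : D a b c ≠ 0) : be a b c b = 1 := div_self h
theorem ga_c (h : D a b c ≠ 0) : ga a b c c = 1 := div_self h
theorem al_b : al a b c b = 0 := by simp [al, D]
theorem al_c : al a b c c = 0 := by
  have : D c b c = 0 := by simp only [D]; ring
  simp [al, this]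
theorem be_a : be a b c a = 0 := by simp [be, D]
theorem be_c : be a b c c = 0 := by
  have : D a c c = 0 := by simp only [D]; ring
  simp [be, this]
theorem ga_a : ga a b c a = 0 := by simp [ga, D]
theorem ga_b : ga a b c b = 0 := by
  have : D a b b = 0 := by simp only [D]; ring
  simp [ga, this]

theorem mem_bc (h : D a b c ≠ 0) {q : ℝ × ℝ} (h1 : al a b c q = 0) (h2 : 0 ≤ be a b c q)
    (h3 : 0 ≤ ga a b c q) : q ∈ segment ℝ b c := by
  refine ⟨be a b c q, ga a b c q, h2, h3, ?_, ?_⟩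
  · have := sum_one h q; rw [h1] at this; linarith
  · have := repr h q
    rw [h1, zero_smul, zero_add] at this
    exact this.symm

theorem mem_ac (h : D a b c ≠ 0) {q : ℝ × ℝ} (h1 : 0 ≤ al a b c q) (h2 : be a b c q = 0)
    (h3 : 0 ≤ ga a b c q) : q ∈ segment ℝ a c := by
  refine ⟨al a b c q, ga a b c q, h1, h3, ?_, ?_⟩
  · have := sum_one h q; rw [h2] at this; linarith
  · have := repr h q
    rw [h2, zero_smul, add_zero] at this
    exact this.symm

theorem mem_ab (h : D a b c ≠ 0) {q : ℝ × ℝ} (h1 : 0 ≤ al a b c q) (h2 : 0 ≤ be a b c q)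
    (h3 : ga a b c q = 0) : q ∈ segment ℝ a b := by
  refine ⟨al a b c q, be a b c q, h1, h2, ?_, ?_⟩
  · have := sum_one h q; rw [h3] at this; linarith
  · have := repr h q
    rw [h3, zero_smul, add_zero] at this
    exact this.symm

/-- strictly inside the triangle -/
def Inside (a b c q : ℝ × ℝ) : Prop := 0 < al a b c q ∧ 0 < be a b c q ∧ 0 < ga a b c q

theorem step_inside (h : D a b c ≠ 0) {r s : ℝ × ℝ}
    (hab : ∀ q ∈ segment ℝ r s, q ∉ segment ℝ a b)
    (hbc : ∀ q ∈ segment ℝ r s, q ∉ segment ℝ b c)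
    (hac : ∀ q ∈ segment ℝ r s, q ∉ segment ℝ a c)
    (hr : Inside a b c r) : Inside a b c s := by
  by_contra hs
  let g : ℝ → ℝ := fun t => min (al a b c (pt r s t)) (min (be a b c (pt r s t))
    (ga a b c (pt r s t)))
  have hg : Continuous g := by
    simp only [g, al_pt, be_pt, ga_pt]
    fun_prop
  have h0 : 0 < g 0 := by
    simp only [g, al_pt, be_pt, ga_pt, sub_zero, one_mul, zero_mul, add_zero]
    exact lt_min hr.1 (lt_min hr.2.1 hr.2.2)
  have h1 : g 1 ≤ 0 := by
    simp only [g, al_pt, be_pt, ga_pt, sub_self, one_mul, zero_mul, zero_add]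
    by_contra hh
    push Not at hh
    rw [lt_min_iff, lt_min_iff] at hh
    exact hs ⟨hh.1, hh.2.1, hh.2.2⟩
  obtain ⟨t, ht, ht0⟩ := intermediate_value_Icc' (zero_le_one) hg.continuousOn ⟨h1, h0.le⟩
  have hq : pt r s t ∈ segment ℝ r s := mem_segment_iff.2 ⟨t, ht, rfl⟩
  have m1 : 0 ≤ al a b c (pt r s t) := by rw [← ht0]; exact min_le_left _ _
  have m2 : 0 ≤ be a b c (pt r s t) := by
    rw [← ht0]; exact (min_le_right _ _).trans (min_le_left _ _)
  have m3 : 0 ≤ ga a b c (pt r s t) := by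
    rw [← ht0]; exact (min_le_right _ _).trans (min_le_right _ _)
  have hz : al a b c (pt r s t) = 0 ∨ be a b c (pt r s t) = 0 ∨ ga a b c (pt r s t) = 0 := by
    by_contra hh
    push Not at hh
    have : 0 < g t := lt_min (lt_of_le_of_ne m1 hh.1.symm)
      (lt_min (lt_of_le_of_ne m2 hh.2.1.symm) (lt_of_le_of_ne m3 hh.2.2.symm))
    rw [ht0] at this
    exact lt_irrefl _ this
  rcases hz with hz | hz | hz
  · exact hbc _ hq (mem_bc h hz m2 m3)
  · exact hac _ hq (mem_ac h m1 hz m3)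
  · exact hab _ hq (mem_ab h m1 m2 hz)

theorem dich (h : D a b c ≠ 0) {u : ℝ × ℝ} (hu : 0 < ga a b c u)
    (h1 : ∀ q ∈ segment ℝ a u, q ∉ segment ℝ b c)
    (h2 : ∀ q ∈ segment ℝ b u, q ∉ segment ℝ a c) :
    Inside a b c u ∨ (al a b c u < 0 ∧ be a b c u < 0) := by
  have k1 : ¬ (0 ≤ be a b c u ∧ al a b c u ≤ 0) := by
    rintro ⟨hb, ha⟩
    have hpos : 0 < 1 - al a b c u := by linarith
    set t := 1 / (1 - al a b c u) with ht
    have ht0 : 0 < t := by positivity
    have ht1 : t ≤ 1 := by rw [ht, div_le_one hpos]; linarith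
    have hq : pt a u t ∈ segment ℝ a u := mem_segment_iff.2 ⟨t, ⟨ht0.le, ht1⟩, rfl⟩
    apply h1 _ hq
    apply mem_bc h
    · rw [al_pt, al_a h, ht]; field_simp; ring
    · rw [be_pt, be_a]; have := mul_nonneg ht0.le hb; linarith
    · rw [ga_pt, ga_a]; have := mul_pos ht0 hu; linarith
  have k2 : ¬ (be a b c u ≤ 0 ∧ 0 ≤ al a b c u) := by
    rintro ⟨hb, ha⟩
    have hpos : 0 < 1 - be a b c u := by linarith
    set t := 1 / (1 - be a b c u) with ht
    have ht0 : 0 < t := by positivity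
    have ht1 : t ≤ 1 := by rw [ht, div_le_one hpos]; linarith
    have hq : pt b u t ∈ segment ℝ b u := mem_segment_iff.2 ⟨t, ⟨ht0.le, ht1⟩, rfl⟩
    apply h2 _ hq
    apply mem_ac h
    · rw [al_pt, al_b]; have := mul_nonneg ht0.le ha; linarith
    · rw [be_pt, be_b h, ht]; field_simp; ring
    · rw [ga_pt, ga_b]; have := mul_pos ht0 hu; linarith
  rcases lt_trichotomy (be a b c u) 0 with hb | hb | hb
  · right
    refine ⟨?_, hb⟩
    by_contra hh; push Not at hh; exact k2 ⟨hb.le, hh⟩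
  · exfalso
    rcases le_total (al a b c u) 0 with ha | ha
    · exact k1 ⟨hb.ge, ha⟩
    · exact k2 ⟨hb.le, ha⟩
  · left
    refine ⟨?_, hb, hu⟩
    by_contra hh; push Not at hh; exact k1 ⟨hb.le, hh⟩

theorem swap_inside (h : D a b c ≠ 0) {u : ℝ × ℝ} (hu : 0 < ga a b c u)
    (h1 : al a b c u < 0) (h2 : be a b c u < 0) : D a b u ≠ 0 ∧ Inside a b u c := by
  have hr := repr h u
  have hs := sum_one h u
  set A := al a b c u
  set B := be a b c u
  set C := ga a b c u with hC
  have e3 : D a b u = C * D a b c := by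
    rw [hC]; unfold ga; field_simp
  have hD : D a b u ≠ 0 := by rw [e3]; exact mul_ne_zero hu.ne' h
  have hA : A = 1 - B - C := by linarith
  have e1 : D c b u = -A * D a b c := by
    rw [hr, hA]
    simp only [D, Prod.fst_add, Prod.smul_fst, smul_eq_mul, Prod.snd_add, Prod.smul_snd]; ring
  have e2 : D a c u = -B * D a b c := by
    rw [hr, hA]
    simp only [D, Prod.fst_add, Prod.smul_fst, smul_eq_mul, Prod.snd_add, Prod.smul_snd]; ring
  refine ⟨hD, ?_, ?_, ?_⟩
  · unfold al
    rw [e1, e3, mul_div_mul_right _ _ h]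
    exact div_pos (by linarith) hu
  · unfold be
    rw [e2, e3, mul_div_mul_right _ _ h]
    exact div_pos (by linarith) hu
  · unfold ga
    rw [e3]
    have : D a b c / (C * D a b c) = 1 / C := by field_simp
    rw [this]
    exact div_pos one_pos hu

theorem collinear_cases {x y z : ℝ × ℝ} (h : D x y z = 0) (hxy : x ≠ y) :
    x ∈ segment ℝ y z ∨ y ∈ segment ℝ x z ∨ z ∈ segment ℝ x y := by
  obtain ⟨t, ht⟩ : ∃ t : ℝ, z = pt x y t := by
    by_cases h1 : y.1 = x.1
    · have h2 : y.2 - x.2 ≠ 0 := by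
        intro hh
        exact hxy (Prod.ext h1.symm (by linarith))
      refine ⟨(z.2 - x.2) / (y.2 - x.2), ?_⟩
      have h3 : z.1 = x.1 := by
        simp only [D, h1] at h
        have : (y.2 - x.2) * (z.1 - x.1) = 0 := by linarith
        rcases mul_eq_zero.1 this with h' | h'
        · exact absurd h' h2
        · linarith
      unfold pt
      ext
      · simp only [Prod.fst_add, Prod.smul_fst, smul_eq_mul]
        rw [h1, h3]; ring
      · simp only [Prod.snd_add, Prod.smul_snd, smul_eq_mul]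
        field_simp; ring
    · have h2 : y.1 - x.1 ≠ 0 := sub_ne_zero.2 h1
      refine ⟨(z.1 - x.1) / (y.1 - x.1), ?_⟩
      unfold pt
      ext
      · simp only [Prod.fst_add, Prod.smul_fst, smul_eq_mul]
        field_simp; ring
      · simp only [Prod.snd_add, Prod.smul_snd, smul_eq_mul]
        simp only [D] at h
        field_simp
        linarith
  rcases le_total t 0 with h0 | h0
  · left
    have hpos : 0 < 1 - t := by linarith
    refine ⟨-t / (1 - t), 1 / (1 - t), div_nonneg (by linarith) hpos.le,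
      div_nonneg zero_le_one hpos.le, ?_, ?_⟩
    · rw [← add_div, div_eq_one_iff_eq hpos.ne']; ring
    · rw [ht]; unfold pt
      ext
      · simp only [Prod.fst_add, Prod.smul_fst, smul_eq_mul]; field_simp; ring
      · simp only [Prod.snd_add, Prod.smul_snd, smul_eq_mul]; field_simp; ring
  rcases le_total t 1 with h1 | h1
  · right; right
    exact mem_segment_iff.2 ⟨t, ⟨h0, h1⟩, ht⟩
  · right; left
    have hpos : 0 < t := by linarith
    refine ⟨(t - 1) / t, 1 / t, div_nonneg (by linarith) hpos.le,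
      div_nonneg zero_le_one hpos.le, ?_, ?_⟩
    · rw [← add_div, div_eq_one_iff_eq hpos.ne']; ring
    · rw [ht]; unfold pt
      ext
      · simp only [Prod.fst_add, Prod.smul_fst, smul_eq_mul]; field_simp; ring
      · simp only [Prod.snd_add, Prod.smul_snd, smul_eq_mul]; field_simp; ring

/-- the trapezoid behind the side `bc` -/
def Z (a b c : ℝ × ℝ) (δ : ℝ) : Set (ℝ × ℝ) :=
  {q | al a b c q < 0 ∧ -δ ≤ al a b c q ∧ 0 ≤ be a b c q ∧ 0 ≤ ga a b c q}

theorem Z_mono {δ δ' : ℝ} (h : δ ≤ δ') : Z a b c δ ⊆ Z a b c δ' := by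
  rintro q ⟨h1, h2, h3, h4⟩
  exact ⟨h1, by linarith, h3, h4⟩

theorem Z_convex {δ : ℝ} : Convex ℝ (Z a b c δ) := by
  rw [convex_iff_segment_subset]
  rintro x ⟨x1, x2, x3, x4⟩ y ⟨y1, y2, y3, y4⟩ q hq
  obtain ⟨t, ⟨t0, t1⟩, rfl⟩ := mem_segment_iff.1 hq
  refine ⟨?_, ?_, ?_, ?_⟩
  · rw [al_pt]
    rcases eq_or_lt_of_le t0 with h | h
    · rw [← h]; linarith
    · have := mul_neg_of_pos_of_neg h y1
      have := mul_nonneg (sub_nonneg.2 t1) (neg_nonneg.2 x1.le)
      linarith
  · rw [al_pt]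
    have := mul_nonneg (sub_nonneg.2 t1) (show 0 ≤ al a b c x + δ by linarith)
    have := mul_nonneg t0 (show 0 ≤ al a b c y + δ by linarith)
    linarith
  · rw [be_pt]
    have := mul_nonneg (sub_nonneg.2 t1) x3
    have := mul_nonneg t0 y3
    linarith
  · rw [ga_pt]
    have := mul_nonneg (sub_nonneg.2 t1) x4
    have := mul_nonneg t0 y4
    linarith

/-- a segment disjoint from the side `bc` misses a thin trapezoid -/
theorem thin (h : D a b c ≠ 0) {r s : ℝ × ℝ}
    (hd : ∀ q ∈ segment ℝ r s, q ∉ segment ℝ b c) :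
    ∃ δ > 0, ∀ q ∈ segment ℝ r s, q ∉ Z a b c δ := by
  let K : Set ℝ := Icc (0 : ℝ) 1 ∩ {t | al a b c (pt r s t) ≤ 0 ∧ 0 ≤ be a b c (pt r s t) ∧
    0 ≤ ga a b c (pt r s t)}
  have c1 : Continuous fun t => al a b c (pt r s t) := by simp only [al_pt]; fun_prop
  have c2 : Continuous fun t => be a b c (pt r s t) := by simp only [be_pt]; fun_prop
  have c3 : Continuous fun t => ga a b c (pt r s t) := by simp only [ga_pt]; fun_prop
  have hK : IsCompact K := by
    apply isCompact_Icc.inter_right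
    exact (isClosed_le c1 continuous_const).inter
      ((isClosed_le continuous_const c2).inter (isClosed_le continuous_const c3))
  rcases K.eq_empty_or_nonempty with he | hne
  · refine ⟨1, one_pos, ?_⟩
    intro q hq hZ
    obtain ⟨t, ht, rfl⟩ := mem_segment_iff.1 hq
    have : t ∈ K := ⟨ht, hZ.1.le, hZ.2.2.1, hZ.2.2.2⟩
    rw [he] at this
    exact this
  · obtain ⟨t0, ht0, hmax⟩ := hK.exists_isMaxOn hne c1.continuousOn
    have hneg : al a b c (pt r s t0) < 0 := by
      refine lt_of_le_of_ne ht0.2.1 ?_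
      intro hz
      exact hd _ (mem_segment_iff.2 ⟨t0, ht0.1, rfl⟩) (mem_bc h hz ht0.2.2.1 ht0.2.2.2)
    refine ⟨-al a b c (pt r s t0) / 2, by linarith, ?_⟩
    intro q hq hZ
    obtain ⟨t, ht, rfl⟩ := mem_segment_iff.1 hq
    have htK : t ∈ K := ⟨ht, hZ.1.le, hZ.2.2.1, hZ.2.2.2⟩
    have h1 : al a b c (pt r s t) ≤ al a b c (pt r s t0) := hmax htK
    have h2 := hZ.2.1
    linarith

end Run7.h50.T8
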